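import Mathlib

/-! Measure-universal sets. -/

open MeasureTheory

namespace Pool.Agent.Helper69.Sim

/-- `E ⊆ ℝ^d` is measure-universal: every measurable set of positive Lebesgue measure contains a
set `t + T(E)` with `T` an invertible linear map. -/
def MeasureUniversal {d : ℕ} (E : Set (Fin d → ℝ)) : Prop :=
  ∀ K : Set (Fin d → ℝ), MeasurableSet K → 0 < volume K →
    ∃ (t : Fin d → ℝ) (T : (Fin d → ℝ) ≃ₗ[ℝ] (Fin d → ℝ)), ∀ e ∈ E, t + T e ∈ K

end Pool.Agent.Helper69.Sim
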