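import Mathlib

/-! Two finite lemmas: a weighted hitting set for a family of few large sets, and a bound for the
number of sign patterns of linear functionals (Sauer-Shelah). -/

open Finset

namespace Pool.Agent.Helper69.Sim

lemma card_avoid {X : Type} [Fintype X] [DecidableEq X] (F : Finset X) (q : ℕ) :
    (#{f : X → Fin (q + 1) | ∀ x ∈ F, f x ≠ 0}) = q ^ #F * (q + 1) ^ (Fintype.card X - #F) := by
  classical
  have h : ({f : X → Fin (q + 1) | ∀ x ∈ F, f x ≠ 0} : Finset (X → Fin (q + 1))) =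
      Fintype.piFinset (fun x => if x ∈ F then (univ.erase 0 : Finset (Fin (q + 1))) else univ) := by
    ext f
    simp only [mem_filter, mem_univ, true_and, Fintype.mem_piFinset]
    constructor
    · intro h x
      by_cases hx : x ∈ F
      · simp [hx, h x hx]
      · simp [hx]
    · intro h x hx
      have := h x
      simpa [hx] using this
  rw [h, Fintype.card_piFinset]
  have h2 : ∀ x : X, #(if x ∈ F then (univ.erase 0 : Finset (Fin (q + 1))) else univ) =
      if x ∈ F then q else q + 1 := by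
    intro x; split_ifs <;> simp
  simp only [h2]
  rw [Finset.prod_ite]
  simp only [prod_const]
  congr 2
  · congr 1; ext; simp
  · rw [← Finset.card_compl]; congr 1; ext; simp

lemma exists_hitting {X : Type} [Fintype X] [DecidableEq X] (μ : X → ℝ) (hμ : ∀ x, 0 ≤ μ x)
    (hs : ∑ x, μ x ≤ 1) (𝓕 : Finset (Finset X)) (N q : ℕ) (hq : 1 ≤ q)
    (hN : ∀ F ∈ 𝓕, N ≤ #F)
    (hB : (#𝓕 : ℝ) * ((q : ℝ) / (q + 1)) ^ N < 1 / 2) :
    ∃ P : Finset X, (∑ x ∈ P, μ x) ≤ 2 / (q + 1) ∧ ∀ F ∈ 𝓕, (F ∩ P).Nonempty := by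
  classical
  have hq0 : (0:ℝ) < q := by exact_mod_cast hq
  have hq1 : (0:ℝ) < (q:ℝ) + 1 := by linarith
  set c : ℝ := ((q:ℝ) + 1) ^ (Fintype.card X) with hc
  have hcpos : 0 < c := by positivity
  -- the function to average
  let Φ : (X → Fin (q + 1)) → ℝ := fun f =>
    (∑ x, if f x = 0 then μ x else 0) +
      (2 / ((q:ℝ) + 1)) * ∑ F ∈ 𝓕, if (∀ x ∈ F, f x ≠ 0) then (1:ℝ) else 0
  have h1 : ∀ x : X, ((#{f : X → Fin (q + 1) | f x = 0} : ℕ) : ℝ) = c / (q + 1) := by
    intro x
    have e := card_avoid ({x} : Finset X) q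
    simp only [mem_singleton, forall_eq, card_singleton, pow_one] at e
    have e2 : #{f : X → Fin (q + 1) | f x = 0} + #{f : X → Fin (q + 1) | ¬ f x = 0} =
        #(univ : Finset (X → Fin (q + 1))) := by
      rw [Finset.card_filter_add_card_filter_not]
    have e3 : #(univ : Finset (X → Fin (q + 1))) = (q + 1) ^ (Fintype.card X) := by
      simp
    have hX : 1 ≤ Fintype.card X := Fintype.card_pos_iff.mpr ⟨x⟩
    obtain ⟨k, hk⟩ : ∃ k, Fintype.card X = k + 1 := ⟨Fintype.card X - 1, by omega⟩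
    rw [hk] at e e3
    simp only [Nat.add_sub_cancel] at e
    have e4 : #{f : X → Fin (q + 1) | f x = 0} = (q + 1) ^ k := by
      have : #{f : X → Fin (q + 1) | ¬ f x = 0} = q * (q + 1) ^ k := e
      rw [this, e3] at e2
      have : (q + 1) ^ (k + 1) = q * (q + 1) ^ k + (q + 1) ^ k := by ring
      omega
    rw [e4, hc, hk]
    push_cast
    field_simp
    ring
  have h2 : ∀ F ∈ 𝓕, ((#{f : X → Fin (q + 1) | ∀ x ∈ F, f x ≠ 0} : ℕ) : ℝ) ≤
      c * ((q:ℝ) / (q + 1)) ^ N := by
    intro F hF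
    rw [card_avoid]
    push_cast
    have hle : #F ≤ Fintype.card X := Finset.card_le_univ F
    have e1 : (q:ℝ) ^ #F * ((q:ℝ) + 1) ^ (Fintype.card X - #F) = c * ((q:ℝ) / (q + 1)) ^ #F := by
      rw [hc, div_pow]
      have : ((q:ℝ) + 1) ^ (Fintype.card X) = ((q:ℝ) + 1) ^ (Fintype.card X - #F) *
          ((q:ℝ) + 1) ^ #F := by
        rw [← pow_add]; congr 1; omega
      rw [this]
      field_simp
    rw [e1]
    apply mul_le_mul_of_nonneg_left _ hcpos.le
    apply pow_le_pow_of_le_one (by positivity) _ (hN F hF)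
    rw [div_le_one hq1]; linarith
  have hsum : ∑ f : X → Fin (q + 1), Φ f < ∑ f : X → Fin (q + 1), (2 / ((q:ℝ) + 1)) := by
    have a1 : ∑ f : X → Fin (q + 1), (∑ x, if f x = 0 then μ x else 0) ≤ c / (q + 1) := by
      rw [Finset.sum_comm]
      have : ∀ x : X, ∑ f : X → Fin (q + 1), (if f x = 0 then μ x else 0) =
          c / (q + 1) * μ x := by
        intro x
        rw [← Finset.sum_filter, Finset.sum_const, nsmul_eq_mul, h1 x]
      simp only [this]
      rw [← Finset.mul_sum]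
      have : 0 ≤ c / (q + 1) := by positivity
      nlinarith
    have a2 : ∑ f : X → Fin (q + 1), (∑ F ∈ 𝓕, if (∀ x ∈ F, f x ≠ 0) then (1:ℝ) else 0) ≤
        #𝓕 * (c * ((q:ℝ) / (q + 1)) ^ N) := by
      rw [Finset.sum_comm]
      calc _ ≤ ∑ F ∈ 𝓕, c * ((q:ℝ) / (q + 1)) ^ N := by
            apply Finset.sum_le_sum
            intro F hF
            rw [← Finset.sum_filter, Finset.sum_const, nsmul_eq_mul, mul_one]
            exact h2 F hF
        _ = _ := by rw [Finset.sum_const, nsmul_eq_mul]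
    simp only [Φ]
    rw [Finset.sum_add_distrib, ← Finset.mul_sum, Finset.sum_const, nsmul_eq_mul]
    have e3 : ((#(univ : Finset (X → Fin (q + 1))) : ℕ) : ℝ) = c := by
      simp [hc]
    rw [e3]
    have a3 : (2 / ((q:ℝ) + 1)) * ∑ f : X → Fin (q + 1),
        (∑ F ∈ 𝓕, if (∀ x ∈ F, f x ≠ 0) then (1:ℝ) else 0) ≤
        (2 / ((q:ℝ) + 1)) * (c * (#𝓕 * ((q:ℝ) / (q + 1)) ^ N)) := by
      apply mul_le_mul_of_nonneg_left _ (by positivity)
      calc _ ≤ _ := a2
        _ = _ := by ring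
    have a4 : (2 / ((q:ℝ) + 1)) * (c * (#𝓕 * ((q:ℝ) / (q + 1)) ^ N)) <
        (2 / ((q:ℝ) + 1)) * (c * (1 / 2)) := by
      apply mul_lt_mul_of_pos_left _ (by positivity)
      exact mul_lt_mul_of_pos_left hB hcpos
    calc _ ≤ c / (q + 1) + (2 / ((q:ℝ) + 1)) * (c * (#𝓕 * ((q:ℝ) / (q + 1)) ^ N)) :=
          add_le_add a1 a3
      _ < c / (q + 1) + (2 / ((q:ℝ) + 1)) * (c * (1 / 2)) := by linarith
      _ = c * (2 / ((q:ℝ) + 1)) := by field_simp; ring
  obtain ⟨f, -, hf⟩ := Finset.exists_lt_of_sum_lt hsum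
  have hn1 : 0 ≤ ∑ x, (if f x = 0 then μ x else 0) :=
    Finset.sum_nonneg (fun x _ => by split_ifs; exacts [hμ x, le_rfl])
  have hn2 : 0 ≤ ∑ F ∈ 𝓕, (if (∀ x ∈ F, f x ≠ 0) then (1:ℝ) else 0) :=
    Finset.sum_nonneg (fun x _ => by split_ifs <;> norm_num)
  refine ⟨univ.filter (fun x => f x = 0), ?_, ?_⟩
  · rw [Finset.sum_filter]
    have : 0 ≤ (2 / ((q:ℝ) + 1)) * ∑ F ∈ 𝓕, (if (∀ x ∈ F, f x ≠ 0) then (1:ℝ) else 0) := by
      positivity
    simp only [Φ] at hf
    linarith
  · intro F hF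
    by_contra hcon
    rw [Finset.not_nonempty_iff_eq_empty] at hcon
    have hav : ∀ x ∈ F, f x ≠ 0 := by
      intro x hx h0
      have : x ∈ F ∩ univ.filter (fun x => f x = 0) := by simp [hx, h0]
      rw [hcon] at this
      simp at this
    have : (1:ℝ) ≤ ∑ F ∈ 𝓕, (if (∀ x ∈ F, f x ≠ 0) then (1:ℝ) else 0) := by
      calc (1:ℝ) = if (∀ x ∈ F, f x ≠ 0) then (1:ℝ) else 0 := by rw [if_pos hav]
        _ ≤ _ := Finset.single_le_sum (f := fun F => if (∀ x ∈ F, f x ≠ 0) then (1:ℝ) else 0)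
            (fun G _ => by split_ifs <;> norm_num) hF
    have h3 : (2 / ((q:ℝ) + 1)) * 1 ≤
        (2 / ((q:ℝ) + 1)) * ∑ F ∈ 𝓕, (if (∀ x ∈ F, f x ≠ 0) then (1:ℝ) else 0) :=
      mul_le_mul_of_nonneg_left this (by positivity)
    simp only [Φ] at hf
    linarith

/-- Number of sign patterns of linear functionals: at most `(h+1)^D`. -/
lemma card_patterns {I : Type} [Fintype I] [DecidableEq I] {V : Type} [AddCommGroup V]
    [Module ℝ V] [FiniteDimensional ℝ V] (φ : V →ₗ[ℝ] (I → ℝ)) (𝒜 : Finset (Finset I))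
    (h𝒜 : ∀ s ∈ 𝒜, ∃ v, ∀ i, i ∈ s ↔ 0 ≤ φ v i) :
    #𝒜 ≤ (Fintype.card I + 1) ^ (Module.finrank ℝ V) := by
  classical
  have hvc : 𝒜.vcDim ≤ Module.finrank ℝ V := by
    unfold Finset.vcDim
    apply Finset.sup_le
    intro J hJ
    rw [Finset.mem_shatterer] at hJ
    by_contra hlt
    push Not at hlt
    -- restriction map
    let ρ : V →ₗ[ℝ] (J → ℝ) := LinearMap.pi (fun j => (LinearMap.proj (j : I)).comp φ)
    have hr : LinearMap.range ρ < ⊤ := by
      rw [lt_top_iff_ne_top]
      intro htop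
      have h1 : Module.finrank ℝ (LinearMap.range ρ) ≤ Module.finrank ℝ V :=
        LinearMap.finrank_range_le ρ
      rw [htop, finrank_top] at h1
      rw [Module.finrank_fintype_fun_eq_card, Fintype.card_coe] at h1
      omega
    obtain ⟨f, hf0, hf⟩ := Submodule.exists_le_ker_of_lt_top _ hr
    set z : J → ℝ := fun j => f (Pi.single j 1) with hz
    have hfz : ∀ y : J → ℝ, f y = ∑ j, y j * z j := by
      intro y
      have : y = ∑ j, y j • (Pi.single j (1:ℝ) : J → ℝ) := by
        ext k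
        simp [Finset.sum_apply, Pi.single_apply]
      conv_lhs => rw [this]
      rw [map_sum]
      apply Finset.sum_congr rfl
      intro j _
      rw [map_smul, smul_eq_mul]
    have hker : ∀ v : V, ∑ j : J, φ v j * z j = 0 := by
      intro v
      have h1 : ρ v ∈ LinearMap.ker f := hf (LinearMap.mem_range_self ρ v)
      rw [LinearMap.mem_ker, hfz] at h1
      simpa [ρ] using h1
    have hz0 : ∃ j, z j ≠ 0 := by
      by_contra hcon
      push Not at hcon
      apply hf0
      refine LinearMap.ext fun y => ?_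
      rw [LinearMap.zero_apply, hfz]
      simp [hcon]
    -- wlog some coordinate negative
    have key : ∀ w : J → ℝ, (∃ j, w j < 0) → (∀ v : V, ∑ j : J, φ v j * w j = 0) → False := by
      intro w ⟨j0, hj0⟩ hw
      obtain ⟨u, hu, huJ⟩ := hJ (t := J.filter (fun i => ∀ h : i ∈ J, 0 ≤ w ⟨i, h⟩))
        (Finset.filter_subset _ _)
      obtain ⟨v, hv⟩ := h𝒜 u hu
      have hmem : ∀ j : J, (0 ≤ φ v j ↔ 0 ≤ w j) := by
        intro j
        rw [← hv]
        constructor
        · intro h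
          have : (j : I) ∈ J ∩ u := Finset.mem_inter.mpr ⟨j.2, h⟩
          rw [huJ, Finset.mem_filter] at this
          exact this.2 j.2
        · intro h
          have : (j : I) ∈ J ∩ u := by
            rw [huJ, Finset.mem_filter]
            exact ⟨j.2, fun _ => h⟩
          exact (Finset.mem_inter.mp this).2
      have hnn : ∀ j : J, 0 ≤ φ v j * w j := by
        intro j
        by_cases hj : 0 ≤ w j
        · exact mul_nonneg ((hmem j).2 hj) hj
        · have : ¬ 0 ≤ φ v j := fun h => hj ((hmem j).1 h)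
          push Not at hj this
          exact (mul_pos_of_neg_of_neg this hj).le
      have hpos : 0 < φ v j0 * w j0 := by
        have : ¬ 0 ≤ φ v j0 := fun h => absurd ((hmem j0).1 h) (not_le.mpr hj0)
        push Not at this
        exact mul_pos_of_neg_of_neg this hj0
      have : 0 < ∑ j : J, φ v j * w j :=
        Finset.sum_pos' (fun j _ => hnn j) ⟨j0, Finset.mem_univ _, hpos⟩
      rw [hw v] at this
      exact lt_irrefl _ this
    obtain ⟨j, hj⟩ := hz0
    rcases lt_or_gt_of_ne hj with h | h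
    · exact key z ⟨j, h⟩ hker
    · refine key (fun j => - z j) ⟨j, by simpa using h⟩ ?_
      intro v
      have := hker v
      simp only [mul_neg, Finset.sum_neg_distrib, this, neg_zero]
  set D := Module.finrank ℝ V with hD
  set h := Fintype.card I with hh
  calc #𝒜 ≤ #𝒜.shatterer := Finset.card_le_card_shatterer 𝒜
    _ ≤ ∑ k ∈ Finset.Iic 𝒜.vcDim, (Fintype.card I).choose k := Finset.card_shatterer_le_sum_vcDim
    _ ≤ ∑ k ∈ Finset.Iic D, h.choose k :=
        Finset.sum_le_sum_of_subset (Finset.Iic_subset_Iic.mpr hvc)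
    _ ≤ ∑ k ∈ Finset.range (D + 1), h ^ k * D.choose k := by
        have : Finset.Iic D = Finset.range (D + 1) := by ext; simp
        rw [this]
        apply Finset.sum_le_sum
        intro k hk
        have hk' : k ≤ D := by simpa [Nat.lt_succ_iff] using hk
        have h1 : 1 ≤ D.choose k := Nat.choose_pos hk'
        calc h.choose k ≤ h ^ k := Nat.choose_le_pow h k
          _ = h ^ k * 1 := (mul_one _).symm
          _ ≤ _ := Nat.mul_le_mul_left _ h1
    _ = (h + 1) ^ D := by
        rw [add_pow]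
        apply Finset.sum_congr rfl
        intro k _
        simp

end Pool.Agent.Helper69.Sim
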