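import Mathlib
import Pool.Agent.Helper69.Sim.Hit

/-! Digits: injectivity along lacunary configurations. -/

open Finset

namespace Pool.Agent.Helper69.Sim

variable {d : ℕ} {ι : Type} [Fintype ι]

/-- The digits of `x` at the scales `‖γ i‖`. -/
noncomputable def Dg (γ : ι → Fin d → ℝ) (L M : ℕ) (x : Fin d → ℝ) : ι × Fin d → ZMod M :=
  fun p => ((⌊(2 * L / ‖γ p.1‖) * x p.2⌋ : ℤ) : ZMod M)

/-- `T` is `L`-bi-Lipschitz. -/
def BiL (L : ℕ) (T : (Fin d → ℝ) ≃ₗ[ℝ] (Fin d → ℝ)) : Prop :=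
  ∀ v, ‖T v‖ ≤ L * ‖v‖ ∧ ‖v‖ ≤ L * ‖T v‖

lemma floor_cast_ne {M : ℕ} {x y : ℝ} (h1 : 1 ≤ |x - y|) (h2 : |x - y| ≤ M - 1) :
    ((⌊x⌋ : ℤ) : ZMod M) ≠ ((⌊y⌋ : ℤ) : ZMod M) := by
  intro h
  rw [ZMod.intCast_eq_intCast_iff_dvd_sub] at h
  obtain ⟨j, hj⟩ := h
  have hx1 := Int.floor_le x
  have hx2 := Int.lt_floor_add_one x
  have hy1 := Int.floor_le y
  have hy2 := Int.lt_floor_add_one y
  have hj' : (⌊y⌋ : ℝ) - ⌊x⌋ = M * j := by exact_mod_cast hj
  have hlt : |(y - x) - M * j| < 1 := by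
    rw [abs_lt]; constructor <;> linarith
  by_cases hj0 : j = 0
  · subst hj0
    simp only [Int.cast_zero, mul_zero, sub_zero] at hlt
    rw [abs_sub_comm] at hlt
    linarith
  · have hj1 : (1:ℝ) ≤ |(j:ℝ)| := by
      have : (1:ℤ) ≤ |j| := Int.one_le_abs hj0
      exact_mod_cast this
    have h3 : (M:ℝ) ≤ |(M:ℝ) * j| := by
      rw [abs_mul, Nat.abs_cast]
      nlinarith [Nat.cast_nonneg (α := ℝ) M]
    have h4 : |(M:ℝ) * j| ≤ |(y - x)| + |(y - x) - M * j| := by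
      have := abs_sub_abs_le_abs_sub ((M:ℝ) * j) (y - x)
      rw [abs_sub_comm ((M:ℝ) * j)] at this
      linarith
    rw [abs_sub_comm y x] at h4
    linarith

lemma Dg_inj (k L M : ℕ) (hk : 1 ≤ k) (hL : 1 ≤ L) (hM : M = 8 * k * L ^ 2)
    (γ : ι → Fin d → ℝ) (hγ : ∀ i, γ i ≠ 0)
    (hlac : ∀ i j, i ≠ j → ((8 * k * L ^ 2 : ℕ) : ℝ) * ‖γ i‖ ≤ ‖γ j‖ ∨
      ((8 * k * L ^ 2 : ℕ) : ℝ) * ‖γ j‖ ≤ ‖γ i‖)
    (t : Fin d → ℝ) (T : (Fin d → ℝ) ≃ₗ[ℝ] (Fin d → ℝ)) (hT : BiL L T)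
    (n n' : ι → ℤ) (hn : ∑ i, |n i| ≤ k) (hn' : ∑ i, |n' i| ≤ k) (hne : n ≠ n') :
    Dg γ L M (t + T (∑ i, n i • γ i)) ≠ Dg γ L M (t + T (∑ i, n' i • γ i)) := by
  classical
  set q : ι → ℤ := fun i => n i - n' i with hq
  have hq0 : (univ.filter (fun i => q i ≠ 0)).Nonempty := by
    by_contra hcon
    rw [Finset.not_nonempty_iff_eq_empty, Finset.filter_eq_empty_iff] at hcon
    apply hne
    ext i
    have := hcon (Finset.mem_univ i)
    simp only [hq, not_not] at this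
    omega
  obtain ⟨s, hs, hmax⟩ := Finset.exists_max_image _ (fun i => ‖γ i‖) hq0
  rw [Finset.mem_filter] at hs
  have hs0 : q s ≠ 0 := hs.2
  set g := ‖γ s‖ with hg
  have hgpos : 0 < g := norm_pos_iff.mpr (hγ s)
  have hkR : (1:ℝ) ≤ k := by exact_mod_cast hk
  have hLR : (1:ℝ) ≤ L := by exact_mod_cast hL
  set Q : ℝ := ((8 * k * L ^ 2 : ℕ) : ℝ) with hQ
  have hQe : Q = 8 * k * L ^ 2 := by rw [hQ]; push_cast; ring
  have hL2 : (1:ℝ) ≤ (L:ℝ) ^ 2 := by nlinarith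
  have hkL : (1:ℝ) ≤ k * (L:ℝ) ^ 2 := by nlinarith
  have hQ1 : 8 ≤ Q := by rw [hQe]; nlinarith
  have hQpos : 0 < Q := by linarith
  have hqsum : ∑ i, |(q i : ℝ)| ≤ 2 * k := by
    have : ∑ i, |q i| ≤ 2 * k := by
      calc ∑ i, |q i| ≤ ∑ i, (|n i| + |n' i|) := Finset.sum_le_sum (fun i _ => abs_sub _ _)
        _ = ∑ i, |n i| + ∑ i, |n' i| := Finset.sum_add_distrib
        _ ≤ _ := by linarith
    exact_mod_cast this
  have hrest : ∀ i, i ≠ s → q i ≠ 0 → ‖γ i‖ ≤ g / Q := by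
    intro i his hi
    have h1 : ‖γ i‖ ≤ g := hmax i (by simp [hi])
    rcases hlac i s his with h | h
    · rw [le_div_iff₀ hQpos]; linarith
    · exfalso
      have : Q * g ≤ g := le_trans h h1
      nlinarith
  set w : Fin d → ℝ := T (∑ i, n i • γ i) - T (∑ i, n' i • γ i) with hw
  have hw1 : w = T (∑ i, (q i : ℝ) • γ i) := by
    rw [hw, ← map_sub]
    congr 1
    rw [← Finset.sum_sub_distrib]
    apply Finset.sum_congr rfl
    intro i _
    simp only [hq]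
    rw [Int.cast_smul_eq_zsmul, sub_smul]
  have hsplit : ∑ i, (q i : ℝ) • γ i = (q s : ℝ) • γ s + ∑ i ∈ univ.erase s, (q i : ℝ) • γ i :=
    (Finset.add_sum_erase _ _ (Finset.mem_univ s)).symm
  have hr : ‖∑ i ∈ univ.erase s, (q i : ℝ) • γ i‖ ≤ 2 * k * (g / Q) := by
    calc _ ≤ ∑ i ∈ univ.erase s, ‖(q i : ℝ) • γ i‖ := norm_sum_le _ _
      _ ≤ ∑ i ∈ univ.erase s, |(q i : ℝ)| * (g / Q) := by
          apply Finset.sum_le_sum
          intro i hi
          rw [norm_smul, Real.norm_eq_abs]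
          by_cases h0 : q i = 0
          · simp [h0]
          · exact mul_le_mul_of_nonneg_left (hrest i (Finset.ne_of_mem_erase hi) h0) (abs_nonneg _)
      _ = (∑ i ∈ univ.erase s, |(q i : ℝ)|) * (g / Q) := by rw [Finset.sum_mul]
      _ ≤ (∑ i, |(q i : ℝ)|) * (g / Q) := by
          apply mul_le_mul_of_nonneg_right _ (by positivity)
          exact Finset.sum_le_univ_sum_of_nonneg (fun i => abs_nonneg _)
      _ ≤ _ := mul_le_mul_of_nonneg_right hqsum (by positivity)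
  have hqs1 : (1:ℝ) ≤ |(q s : ℝ)| := by
    have : (1:ℤ) ≤ |q s| := Int.one_le_abs hs0
    exact_mod_cast this
  have hlow : 3 * g / (4 * L) ≤ ‖w‖ := by
    rw [hw1, hsplit, map_add]
    have h1 := (hT (γ s)).2
    have h2 := (hT (∑ i ∈ univ.erase s, (q i : ℝ) • γ i)).1
    have h3 : ‖T ((q s : ℝ) • γ s)‖ = |(q s : ℝ)| * ‖T (γ s)‖ := by
      rw [map_smul, norm_smul, Real.norm_eq_abs]
    have h4 : ‖T ((q s : ℝ) • γ s)‖ - ‖T (∑ i ∈ univ.erase s, (q i : ℝ) • γ i)‖ ≤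
        ‖T ((q s : ℝ) • γ s) + T (∑ i ∈ univ.erase s, (q i : ℝ) • γ i)‖ := norm_sub_le_norm_add _ _
    have h5 : g / L ≤ ‖T (γ s)‖ := by
      rw [div_le_iff₀ (by linarith)]; linarith
    have h6 : (L:ℝ) * (2 * k * (g / Q)) = g / (4 * L) := by
      rw [hQe]; field_simp; ring
    have h7 : ‖T (∑ i ∈ univ.erase s, (q i : ℝ) • γ i)‖ ≤ g / (4 * L) := by
      calc _ ≤ _ := h2
        _ ≤ (L:ℝ) * (2 * k * (g / Q)) := mul_le_mul_of_nonneg_left hr (by linarith)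
        _ = _ := h6
    have h8 : g / L ≤ |(q s : ℝ)| * ‖T (γ s)‖ := by
      have := norm_nonneg (T (γ s))
      nlinarith
    have h9 : 3 * g / (4 * L) = g / L - g / (4 * L) := by field_simp; ring
    rw [h9]
    linarith
  have hup : ‖w‖ ≤ 2 * k * L * g := by
    rw [hw1]
    calc _ ≤ _ := (hT _).1
      _ ≤ L * (2 * k * g) := by
          apply mul_le_mul_of_nonneg_left _ (by linarith)
          calc _ ≤ ∑ i, ‖(q i : ℝ) • γ i‖ := norm_sum_le _ _
            _ ≤ ∑ i, |(q i : ℝ)| * g := by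
                apply Finset.sum_le_sum
                intro i _
                rw [norm_smul, Real.norm_eq_abs]
                by_cases h0 : q i = 0
                · simp [h0]
                · exact mul_le_mul_of_nonneg_left (hmax i (by simp [h0])) (abs_nonneg _)
            _ = (∑ i, |(q i : ℝ)|) * g := by rw [Finset.sum_mul]
            _ ≤ _ := mul_le_mul_of_nonneg_right hqsum hgpos.le
      _ = _ := by ring
  have hlowpos : 0 < 3 * g / (4 * L) := by positivity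
  obtain ⟨c, hc⟩ : ∃ c, 3 * g / (4 * L) ≤ |w c| := by
    by_contra hcon
    push Not at hcon
    have := (pi_norm_lt_iff hlowpos).2 (fun c => by rw [Real.norm_eq_abs]; exact hcon c)
    linarith
  have hc2 : |w c| ≤ 2 * k * L * g := by
    rw [← Real.norm_eq_abs]
    exact (norm_le_pi_norm w c).trans hup
  intro heq
  have hcoord := congrFun heq (s, c)
  simp only [Dg] at hcoord
  refine floor_cast_ne ?_ ?_ hcoord
  · rw [← mul_sub, abs_mul]
    have e1 : (t + T (∑ i, n i • γ i)) c - (t + T (∑ i, n' i • γ i)) c = w c := by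
      simp [hw]
    rw [e1, abs_of_nonneg (by positivity)]
    have : (2 * L / ‖γ s‖) * (3 * g / (4 * L)) = 3 / 2 := by
      rw [← hg]; field_simp; ring
    have h2 : (2 * L / ‖γ s‖) * (3 * g / (4 * L)) ≤ (2 * L / ‖γ s‖) * |w c| :=
      mul_le_mul_of_nonneg_left hc (by positivity)
    linarith
  · rw [← mul_sub, abs_mul]
    have e1 : (t + T (∑ i, n i • γ i)) c - (t + T (∑ i, n' i • γ i)) c = w c := by
      simp [hw]
    rw [e1, abs_of_nonneg (by positivity)]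
    have h2 : (2 * L / ‖γ s‖) * |w c| ≤ (2 * L / ‖γ s‖) * (2 * k * L * g) :=
      mul_le_mul_of_nonneg_left hc2 (by positivity)
    have h3 : (2 * L / ‖γ s‖) * (2 * k * L * g) = 4 * (k * L ^ 2) := by
      rw [← hg]; field_simp; ring
    have h4 : (M:ℝ) = 8 * (k * L ^ 2) := by rw [hM]; push_cast; ring
    rw [h4]
    linarith

end Pool.Agent.Helper69.Sim
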