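import Mathlib
import Pool.Agent.Helper69.Sim.Dig

/-! Counting digit patterns. -/

open Finset

namespace Pool.Agent.Helper69.Sim

variable {d : ℕ} {ι : Type} [Fintype ι]

/-- The normalised configuration: the set of the vectors `γ j / ‖γ i‖`. -/
noncomputable def Rat (γ : ι → Fin d → ℝ) : Finset (Fin d → ℝ) := by
  classical exact univ.image (fun p : ι × ι => ‖γ p.1‖⁻¹ • γ p.2)

lemma mem_Rat (γ : ι → Fin d → ℝ) (i j : ι) : ‖γ i‖⁻¹ • γ j ∈ Rat γ := by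
  classical
  unfold Rat
  exact Finset.mem_image.mpr ⟨(i, j), Finset.mem_univ _, rfl⟩

/-- reduction modulo `M` into `[0, M)` -/
noncomputable def md (M : ℕ) (x : ℝ) : ℝ := x - M * ⌊x / M⌋

lemma md_nonneg {M : ℕ} (hM : 0 < M) (x : ℝ) : 0 ≤ md M x := by
  have h : (0:ℝ) < M := by exact_mod_cast hM
  have := Int.floor_le (x / M)
  rw [le_div_iff₀ h] at this
  unfold md; linarith

lemma md_lt {M : ℕ} (hM : 0 < M) (x : ℝ) : md M x < M := by
  have h : (0:ℝ) < M := by exact_mod_cast hM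
  have := Int.lt_floor_add_one (x / M)
  rw [div_lt_iff₀ h] at this
  unfold md; linarith

lemma md_eq (M : ℕ) (x : ℝ) : x = md M x + M * ⌊x / M⌋ := by unfold md; ring

/-- index set of the functionals -/
abbrev Idx (d : ℕ) (ι : Type) [Fintype ι] (𝒩 : Finset (ι → ℤ)) (W : ℕ) : Type :=
  (ι × Fin d) × 𝒩 × Fin W

/-- parameter space -/
abbrev Par (d : ℕ) (ι : Type) [Fintype ι] (R : Finset (Fin d → ℝ)) : Type :=
  (ι × Fin d → ℝ) × (R × Fin d → ℝ) × ℝ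

/-- the functionals -/
noncomputable def fn (γ : ι → Fin d → ℝ) (𝒩 : Finset (ι → ℤ)) (W K : ℕ) :
    Par d ι (Rat γ) →ₗ[ℝ] (Idx d ι 𝒩 W → ℝ) where
  toFun p idx := p.1 idx.1 +
    ∑ j, (idx.2.1.1 j : ℝ) * p.2.1 (⟨‖γ idx.1.1‖⁻¹ • γ j, mem_Rat γ idx.1.1 j⟩, idx.1.2)
      - p.2.2 * ((idx.2.2 : ℕ) - K : ℝ)
  map_add' p p' := by
    ext idx
    simp only [Prod.fst_add, Prod.snd_add, Pi.add_apply, mul_add, Finset.sum_add_distrib]
    ring
  map_smul' c p := by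
    ext idx
    simp only [Prod.smul_fst, Prod.smul_snd, Pi.smul_apply, smul_eq_mul, RingHom.id_apply,
      mul_sub, mul_add, Finset.mul_sum]
    congr 1
    · congr 1
      apply Finset.sum_congr rfl
      intro j _
      ring
    · ring

/-- the parameter of `(t, T)` -/
noncomputable def par (γ : ι → Fin d → ℝ) (L M : ℕ) (t : Fin d → ℝ)
    (T : (Fin d → ℝ) ≃ₗ[ℝ] (Fin d → ℝ)) : Par d ι (Rat γ) :=
  (fun p => md M ((2 * L / ‖γ p.1‖) * t p.2), fun p => md M (2 * L * T p.1.1 p.2), 1)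

open Classical in
/-- the digit pattern decoded from a sign pattern -/
noncomputable def dec (M : ℕ) (𝒩 : Finset (ι → ℤ)) (W : ℕ) (X : Finset (Idx d ι 𝒩 W)) (n : 𝒩) :
    ι × Fin d → ZMod M :=
  fun p => ((#(univ.filter (fun v : Fin W => (p, n, v) ∈ X)) : ℕ) : ZMod M) - 1

lemma dec_eq (k L M W : ℕ) (hM : 0 < M) (hW : W = (2 * k + 1) * M)
    (γ : ι → Fin d → ℝ) (𝒩 : Finset (ι → ℤ)) (h𝒩 : ∀ n ∈ 𝒩, ∑ i, |n i| ≤ k)
    (t : Fin d → ℝ) (T : (Fin d → ℝ) ≃ₗ[ℝ] (Fin d → ℝ)) (X : Finset (Idx d ι 𝒩 W))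
    (hX : ∀ i, i ∈ X ↔ 0 ≤ fn γ 𝒩 W (k * M) (par γ L M t T) i) (n : 𝒩) :
    dec M 𝒩 W X n = Dg γ L M (t + T (∑ i, n.1 i • γ i)) := by
  classical
  ext p
  obtain ⟨i, c⟩ := p
  set A : ℝ := (2 * L / ‖γ i‖) * t c with hA
  set B : ι → ℝ := fun j => 2 * L * T (‖γ i‖⁻¹ • γ j) c with hB
  set y : ℝ := md M A + ∑ j, (n.1 j : ℝ) * md M (B j) with hy
  have hMR : (0:ℝ) < M := by exact_mod_cast hM
  -- the real number whose floor is the digit
  have e1 : (2 * L / ‖γ i‖) * (t + T (∑ j, n.1 j • γ j)) c =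
      y + ((M * (⌊A / M⌋ + ∑ j, n.1 j * ⌊B j / M⌋) : ℤ) : ℝ) := by
    have h1 : (2 * L / ‖γ i‖) * (t + T (∑ j, n.1 j • γ j)) c = A + ∑ j, (n.1 j : ℝ) * B j := by
      rw [Pi.add_apply, mul_add, map_sum, Finset.sum_apply, Finset.mul_sum]
      congr 1
      apply Finset.sum_congr rfl
      intro j _
      have e : T (n.1 j • γ j) c = (n.1 j : ℝ) * T (γ j) c := by
        rw [← Int.cast_smul_eq_zsmul ℝ, map_smul, Pi.smul_apply, smul_eq_mul]
      simp only [hB, map_smul, Pi.smul_apply, smul_eq_mul, e]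
      ring
    rw [h1]
    conv_lhs => rw [md_eq M A]
    have h2 : ∑ j, (n.1 j : ℝ) * B j =
        ∑ j, (n.1 j : ℝ) * md M (B j) + M * ∑ j, (n.1 j : ℝ) * ⌊B j / M⌋ := by
      rw [Finset.mul_sum, ← Finset.sum_add_distrib]
      apply Finset.sum_congr rfl
      intro j _
      conv_lhs => rw [md_eq M (B j)]
      ring
    rw [h2, hy]
    push_cast
    ring
  have hS : |∑ j, (n.1 j : ℝ) * md M (B j)| ≤ k * M := by
    calc _ ≤ ∑ j, |(n.1 j : ℝ) * md M (B j)| := Finset.abs_sum_le_sum_abs _ _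
      _ ≤ ∑ j, |(n.1 j : ℝ)| * M := by
          apply Finset.sum_le_sum
          intro j _
          rw [abs_mul, abs_of_nonneg (md_nonneg hM _)]
          exact mul_le_mul_of_nonneg_left (md_lt hM _).le (abs_nonneg _)
      _ = (∑ j, |(n.1 j : ℝ)|) * M := by rw [Finset.sum_mul]
      _ ≤ k * M := by
          apply mul_le_mul_of_nonneg_right _ hMR.le
          exact_mod_cast h𝒩 n.1 n.2
  have hy1 : -(k * M : ℝ) ≤ y := by
    have := (abs_le.mp hS).1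
    have := md_nonneg hM A
    rw [hy]; linarith
  have hy2 : y < (k + 1) * M := by
    have := (abs_le.mp hS).2
    have := md_lt hM A
    rw [hy]; linarith
  -- z = floor y + kM, natural
  set z : ℤ := ⌊y⌋ + k * M with hz
  have hz0 : 0 ≤ z := by
    have : -(k * M : ℤ) ≤ ⌊y⌋ := by
      rw [Int.le_floor]; push_cast; exact hy1
    rw [hz]; linarith
  have hz1 : z < W := by
    have : ⌊y⌋ < (k + 1) * M := by
      rw [Int.floor_lt]; push_cast; exact hy2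
    rw [hz, hW]; push_cast; linarith
  obtain ⟨zn, hzn⟩ := Int.eq_ofNat_of_zero_le hz0
  have hmem : ∀ v : Fin W, (((i, c), n, v) ∈ X ↔ (v : ℕ) ≤ zn) := by
    intro v
    rw [hX]
    have e2 : fn γ 𝒩 W (k * M) (par γ L M t T) ((i, c), n, v) =
        y - ((v : ℕ) - (k * M : ℕ) : ℝ) := by
      simp only [fn, par, LinearMap.coe_mk, AddHom.coe_mk, hy, hA, hB, one_mul]
    rw [e2]
    have e3 : (0 ≤ y - ((v : ℕ) - (k * M : ℕ) : ℝ)) ↔ (((v : ℕ) : ℤ) - k * M ≤ ⌊y⌋) := by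
      rw [Int.le_floor]
      push_cast
      constructor <;> intro h <;> linarith
    rw [e3]
    have : ((v:ℕ):ℤ) ≤ z ↔ (v:ℕ) ≤ zn := by
      rw [hzn]; exact_mod_cast Iff.rfl
    rw [← this, hz]
    constructor <;> intro h <;> linarith
  have hcard : #(univ.filter (fun v : Fin W => ((i, c), n, v) ∈ X)) = zn + 1 := by
    have hzW : zn < W := by
      have : ((zn : ℕ) : ℤ) < W := by rw [← hzn]; exact hz1
      exact_mod_cast this
    have : (univ.filter (fun v : Fin W => ((i, c), n, v) ∈ X)) =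
        univ.filter (fun v : Fin W => v ≤ ⟨zn, hzW⟩) := by
      ext v
      simp only [mem_filter, mem_univ, true_and, hmem, Fin.le_def]
    rw [this]
    have h3 : (univ.filter (fun v : Fin W => v ≤ ⟨zn, hzW⟩)) = Finset.Iic (⟨zn, hzW⟩ : Fin W) := by
      ext v; simp
    rw [h3, Fin.card_Iic]
  simp only [dec, Dg]
  rw [hcard]
  have e4 : (2 * L / ‖γ i‖) * (t + T (∑ j, n.1 j • γ j)) c =
      y + ((M * (⌊A / M⌋ + ∑ j, n.1 j * ⌊B j / M⌋) : ℤ) : ℝ) := e1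
  rw [e4, Int.floor_add_intCast]
  have e5 : ⌊y⌋ = (zn : ℤ) - k * M := by
    have : z = (zn : ℤ) := hzn
    rw [hz] at this
    linarith
  rw [e5]
  push_cast
  simp

open Classical in
/-- The family of digit sets: few members, all of size `#𝒩`, containing all the images. -/
lemma exists_family (k L : ℕ) (hk : 1 ≤ k) (hL : 1 ≤ L)
    (γ : ι → Fin d → ℝ) (hγ : ∀ i, γ i ≠ 0)
    (hlac : ∀ i j, i ≠ j → ((8 * k * L ^ 2 : ℕ) : ℝ) * ‖γ i‖ ≤ ‖γ j‖ ∨
      ((8 * k * L ^ 2 : ℕ) : ℝ) * ‖γ j‖ ≤ ‖γ i‖)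
    (𝒩 : Finset (ι → ℤ)) (h𝒩 : ∀ n ∈ 𝒩, ∑ i, |n i| ≤ k) :
    have : NeZero (8 * k * L ^ 2) := ⟨by positivity⟩
    ∃ 𝓕 : Finset (Finset (ι × Fin d → ZMod (8 * k * L ^ 2))),
      #𝓕 ≤ (Fintype.card ι * d * (#𝒩 * ((2 * k + 1) * (8 * k * L ^ 2))) + 1) ^
        (Fintype.card ι * d + (#(Rat γ) * d + 1)) ∧
      (∀ F ∈ 𝓕, #𝒩 ≤ #F) ∧
      (∀ t T, BiL L T → ∃ F ∈ 𝓕, ∀ z ∈ F, ∃ n ∈ 𝒩,
        Dg γ L (8 * k * L ^ 2) (t + T (∑ i, n i • γ i)) = z) := by
  have : NeZero (8 * k * L ^ 2) := ⟨by positivity⟩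
  set M := 8 * k * L ^ 2 with hM
  have hMpos : 0 < M := by positivity
  set W := (2 * k + 1) * M with hW
  let 𝒜 : Finset (Finset (Idx d ι 𝒩 W)) := univ.filter (fun X => ∃ t T, BiL L T ∧
    ∀ i, i ∈ X ↔ 0 ≤ fn γ 𝒩 W (k * M) (par γ L M t T) i)
  refine ⟨𝒜.image (fun X => univ.image (fun n : 𝒩 => dec M 𝒩 W X n)), ?_, ?_, ?_⟩
  · refine Finset.card_image_le.trans ?_
    have h1 := card_patterns (fn γ 𝒩 W (k * M)) 𝒜 (by
      intro s hs
      rw [Finset.mem_filter] at hs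
      obtain ⟨-, t, T, -, h⟩ := hs
      exact ⟨_, h⟩)
    have h2 : Module.finrank ℝ (Par d ι (Rat γ)) =
        Fintype.card ι * d + (#(Rat γ) * d + 1) := by
      simp [Par, Module.finrank_prod, Module.finrank_fintype_fun_eq_card]
    have h3 : Fintype.card (Idx d ι 𝒩 W) = Fintype.card ι * d * (#𝒩 * W) := by
      simp [Idx]
    rw [h2, h3] at h1
    exact h1
  · intro F hF
    rw [Finset.mem_image] at hF
    obtain ⟨X, hX, rfl⟩ := hF
    rw [Finset.mem_filter] at hX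
    obtain ⟨-, t, T, hT, hXm⟩ := hX
    rw [Finset.card_image_of_injective]
    · simp
    · intro n n' h
      simp only at h
      rw [dec_eq k L M W hMpos hW γ 𝒩 h𝒩 t T X hXm, dec_eq k L M W hMpos hW γ 𝒩 h𝒩 t T X hXm] at h
      by_contra hne
      exact Dg_inj k L M hk hL hM γ hγ hlac t T hT n.1 n'.1 (h𝒩 _ n.2) (h𝒩 _ n'.2)
        (fun h => hne (Subtype.ext h)) h
  · intro t T hT
    let X : Finset (Idx d ι 𝒩 W) :=
      univ.filter (fun i => 0 ≤ fn γ 𝒩 W (k * M) (par γ L M t T) i)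
    have hXm : ∀ i, i ∈ X ↔ 0 ≤ fn γ 𝒩 W (k * M) (par γ L M t T) i := by
      intro i; simp [X]
    refine ⟨univ.image (fun n : 𝒩 => dec M 𝒩 W X n), ?_, ?_⟩
    · rw [Finset.mem_image]
      refine ⟨X, ?_, rfl⟩
      rw [Finset.mem_filter]
      exact ⟨Finset.mem_univ _, t, T, hT, hXm⟩
    · intro z hz
      rw [Finset.mem_image] at hz
      obtain ⟨n, -, rfl⟩ := hz
      exact ⟨n.1, n.2, (dec_eq k L M W hMpos hW γ 𝒩 h𝒩 t T X hXm n).symm⟩

end Pool.Agent.Helper69.Sim
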