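import Mathlib
import Pool.Agent.Helper69.Sim.Pat
import Pool.Agent.Helper69.Sim.Defs

/-! The entropy criterion. -/

open Finset MeasureTheory

namespace Pool.Agent.Helper69.Sim

/-- The entropy criterion. -/
def Criterion {d : ℕ} (k : ℕ) (E : Set (Fin d → ℝ)) : Prop :=
  ∀ Q C : ℕ, ∃ (m : ℕ) (γ : Fin m → Fin d → ℝ) (x₀ : Fin d → ℝ) (𝒩 : Finset (Fin m → ℤ)),
    (∀ i, γ i ≠ 0) ∧
    (∀ i j, i ≠ j → (Q : ℝ) * ‖γ i‖ ≤ ‖γ j‖ ∨ (Q : ℝ) * ‖γ j‖ ≤ ‖γ i‖) ∧
    (∀ n ∈ 𝒩, ∑ i, |n i| ≤ k ∧ x₀ + ∑ i, n i • γ i ∈ E) ∧ 2 ≤ #𝒩 ∧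
    (C : ℝ) * #(Rat γ) * Real.log #𝒩 ≤ #𝒩

lemma numeric (d k L q : ℕ) (hd : 1 ≤ d) (hk : 1 ≤ k) (hL : 1 ≤ L) :
    ∃ C : ℕ, ∀ (m R N : ℕ), 1 ≤ R → m ≤ R → 2 ≤ N → (C : ℝ) * R * Real.log N ≤ N →
      (((m * d * (N * ((2 * k + 1) * (8 * k * L ^ 2))) + 1) ^ (m * d + (R * d + 1)) : ℕ) : ℝ) *
        ((q : ℝ) / (q + 1)) ^ N < 1 / 2 := by
  set W' : ℕ := (2 * k + 1) * (8 * k * L ^ 2) with hW'
  have hW1 : 1 ≤ W' := Nat.one_le_iff_ne_zero.mpr (by positivity)
  set a0 : ℝ := Real.log (2 * d * W') with ha0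
  have hdR : (1:ℝ) ≤ d := by exact_mod_cast hd
  have hWR : (1:ℝ) ≤ W' := by exact_mod_cast hW1
  have hdW : (1:ℝ) ≤ 2 * d * W' := by nlinarith
  have ha00 : 0 ≤ a0 := Real.log_nonneg hdW
  have hq1 : (0:ℝ) < (q:ℝ) + 1 := by positivity
  obtain ⟨C, hC⟩ := exists_nat_ge (12 * d * (a0 + 1) * (q + 1) + 4 * (q + 1) : ℝ)
  refine ⟨C, fun m R N hR hmR hN hCN => ?_⟩
  have hRR : (1:ℝ) ≤ R := by exact_mod_cast hR
  have hmRR : (m:ℝ) ≤ R := by exact_mod_cast hmR
  have hNR : (2:ℝ) ≤ N := by exact_mod_cast hN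
  have hlog2 : (1/2:ℝ) ≤ Real.log 2 := by have := Real.log_two_gt_d9; linarith
  have hlogN : (1/2:ℝ) ≤ Real.log N := hlog2.trans (Real.log_le_log (by norm_num) hNR)
  have hC4 : 4 * ((q:ℝ) + 1) ≤ C := by
    have : 0 ≤ 12 * d * (a0 + 1) * ((q:ℝ) + 1) := by positivity
    linarith
  have hC12 : 12 * d * (a0 + 1) * ((q:ℝ) + 1) ≤ C := by linarith
  have hCpos : (0:ℝ) < C := by linarith
  have hRlog : R * Real.log N ≤ N / C := by
    rw [le_div_iff₀ hCpos]; linarith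
  have hR2 : (R:ℝ) ≤ 2 * (N / C) := by nlinarith
  have hC2 : (2:ℝ) ≤ C := by
    have : (0:ℝ) ≤ q := Nat.cast_nonneg q
    linarith
  have hRN : (R:ℝ) ≤ N := by
    calc (R:ℝ) ≤ 2 * (N / C) := hR2
      _ = 2 * N / C := by ring
      _ ≤ N := by rw [div_le_iff₀ hCpos]; nlinarith
  -- the base
  set b : ℝ := m * d * (N * W') + 1 with hb
  have hb1 : 1 ≤ b := by
    have : (0:ℝ) ≤ m * d * (N * W') := by positivity
    linarith
  have hb2 : b ≤ 2 * d * W' * (N:ℝ) ^ 2 := by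
    have h1 : (m:ℝ) * d * (N * W') ≤ N * d * (N * W') := by
      have : (m:ℝ) ≤ N := hmRR.trans hRN
      have h2 : (0:ℝ) ≤ d * (N * W') := by positivity
      nlinarith
    have h3 : (1:ℝ) ≤ N * d * (N * W') := by
      have h4 : (1:ℝ) ≤ (N:ℝ) * N := by nlinarith
      have h5 : (1:ℝ) ≤ d * (W':ℝ) := by nlinarith
      nlinarith
    have h6 : 2 * d * W' * (N:ℝ) ^ 2 = N * d * (N * W') + N * d * (N * W') := by ring
    rw [h6, hb]; linarith
  have hlogb : Real.log b ≤ a0 + 2 * Real.log N := by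
    calc Real.log b ≤ Real.log (2 * d * W' * (N:ℝ) ^ 2) := Real.log_le_log (by linarith) hb2
      _ = a0 + 2 * Real.log N := by
          rw [Real.log_mul (by positivity) (by positivity), Real.log_pow]
          push_cast; ring
  have hlogb0 : 0 ≤ Real.log b := Real.log_nonneg hb1
  set e : ℕ := m * d + (R * d + 1) with he
  have heR : (e:ℝ) ≤ 3 * (R * d) := by
    rw [he]; push_cast
    have h1 : (m:ℝ) * d ≤ R * d := by nlinarith
    have h2 : (1:ℝ) ≤ R * d := by nlinarith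
    linarith
  have hexp : (e:ℝ) * Real.log b ≤ N / (2 * (q + 1)) := by
    calc (e:ℝ) * Real.log b ≤ 3 * (R * d) * (a0 + 2 * Real.log N) := by
          apply mul_le_mul heR hlogb hlogb0 (by positivity)
      _ = 3 * d * (a0 * R + 2 * (R * Real.log N)) := by ring
      _ ≤ 3 * d * (a0 * (2 * (N / C)) + 2 * (N / C)) := by
          apply mul_le_mul_of_nonneg_left _ (by positivity)
          have := mul_le_mul_of_nonneg_left hR2 ha00
          linarith
      _ = (6 * d * (a0 + 1)) * N / C := by ring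
      _ ≤ N / (2 * (q + 1)) := by
          rw [div_le_div_iff₀ hCpos (by positivity)]
          have : 12 * d * (a0 + 1) * ((q:ℝ) + 1) * N ≤ C * N :=
            mul_le_mul_of_nonneg_right hC12 (by linarith)
          linarith
  have hbe : (((m * d * (N * W') + 1) ^ e : ℕ) : ℝ) ≤ Real.exp (N / (2 * (q + 1))) := by
    have h1 : (((m * d * (N * W') + 1) ^ e : ℕ) : ℝ) = b ^ e := by
      rw [hb]; push_cast; ring
    rw [h1]
    calc b ^ e = Real.exp (e * Real.log b) := by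
          rw [Real.exp_nat_mul, Real.exp_log (by linarith)]
      _ ≤ _ := Real.exp_le_exp.mpr hexp
  have hqN : ((q:ℝ) / (q + 1)) ^ N ≤ Real.exp (-(N / (q + 1))) := by
    have h1 : (q:ℝ) / (q + 1) ≤ Real.exp (-(1 / (q + 1))) := by
      have := Real.add_one_le_exp (-(1 / ((q:ℝ) + 1)))
      have h2 : (q:ℝ) / (q + 1) = -(1 / ((q:ℝ) + 1)) + 1 := by field_simp; ring
      rw [h2]; exact this
    calc ((q:ℝ) / (q + 1)) ^ N ≤ (Real.exp (-(1 / (q + 1)))) ^ N :=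
          pow_le_pow_left₀ (by positivity) h1 N
      _ = _ := by
          rw [← Real.exp_nat_mul]; congr 1; ring
  have hN1 : 1 ≤ (N:ℝ) / (2 * (q + 1)) := by
    rw [le_div_iff₀ (by positivity)]
    have h1 : (C:ℝ) * R * Real.log N ≥ C * (1/2) := by
      have h2 : (1/2:ℝ) ≤ R * Real.log N := by nlinarith
      calc (C:ℝ) * R * Real.log N = C * (R * Real.log N) := by ring
        _ ≥ _ := mul_le_mul_of_nonneg_left h2 hCpos.le
    linarith
  calc _ ≤ Real.exp (N / (2 * (q + 1))) * Real.exp (-(N / (q + 1))) :=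
        mul_le_mul hbe hqN (by positivity) (by positivity)
    _ = Real.exp (-(N / (2 * (q + 1)))) := by
        rw [← Real.exp_add]; congr 1; field_simp; ring
    _ ≤ Real.exp (-1) := Real.exp_le_exp.mpr (by linarith)
    _ < 1 / 2 := by
        rw [Real.exp_neg, inv_eq_one_div]
        apply one_div_lt_one_div_of_lt (by norm_num)
        have := Real.exp_one_gt_d9
        linarith

lemma measurable_Dg {d : ℕ} {ι : Type} [Fintype ι] (γ : ι → Fin d → ℝ) (L M : ℕ)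
    (z : ι × Fin d → ZMod M) : MeasurableSet {x | Dg γ L M x = z} := by
  have : {x | Dg γ L M x = z} = ⋂ p : ι × Fin d,
      (fun x : Fin d → ℝ => ⌊(2 * L / ‖γ p.1‖) * x p.2⌋) ⁻¹' {j : ℤ | (j : ZMod M) = z p} := by
    ext x
    simp only [Set.mem_ofPred_eq, Set.mem_iInter, Set.mem_preimage]
    constructor
    · intro h p
      rw [← h]; rfl
    · intro h
      ext p
      exact h p
  rw [this]
  apply MeasurableSet.iInter
  intro p
  apply (Measurable.floor (measurable_const.mul (measurable_pi_apply p.2)))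
  exact MeasurableSet.of_discrete

lemma hitting {d k : ℕ} (hk : 1 ≤ k) (E : Set (Fin d → ℝ)) (hE : Criterion k E)
    (L : ℕ) (hL : 1 ≤ L) (ε : ENNReal) (hε : 0 < ε) :
    ∃ H : Set (Fin d → ℝ), MeasurableSet H ∧ volume (H ∩ Set.Icc 0 1) ≤ ε ∧
      ∀ t T, BiL L T → ∃ e ∈ E, t + T e ∈ H := by
  classical
  -- d ≥ 1
  have hd : 1 ≤ d := by
    obtain ⟨m, γ, x₀, 𝒩, h0, -, -, h2, -⟩ := hE 1 1
    by_contra hd
    have hd0 : d = 0 := by omega
    subst hd0
    rcases Nat.eq_zero_or_pos m with hm | hm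
    · subst hm
      have : #𝒩 ≤ 1 := Finset.card_le_one_of_subsingleton 𝒩
      omega
    · exact h0 ⟨0, hm⟩ (Subsingleton.elim _ _)
  obtain ⟨q, hq⟩ : ∃ q : ℕ, 1 ≤ q ∧ ENNReal.ofReal (2 / (q + 1)) ≤ ε := by
    by_cases hεt : ε = ⊤
    · exact ⟨1, le_rfl, by rw [hεt]; exact le_top⟩
    · have hεr : 0 < ε.toReal := ENNReal.toReal_pos hε.ne' hεt
      obtain ⟨q, hq⟩ := exists_nat_gt (2 / ε.toReal)
      refine ⟨q + 1, by omega, ?_⟩
      rw [ENNReal.ofReal_le_iff_le_toReal hεt]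
      rw [div_lt_iff₀ hεr] at hq
      rw [div_le_iff₀ (by positivity)]
      push_cast
      nlinarith
  obtain ⟨hq1, hqε⟩ := hq
  obtain ⟨C, hC⟩ := numeric d k L q hd hk hL
  obtain ⟨m, γ, x₀, 𝒩, h0, hlac, hmem, h2, hlog⟩ := hE (8 * k * L ^ 2) C
  have : NeZero (8 * k * L ^ 2) := ⟨by positivity⟩
  set M := 8 * k * L ^ 2 with hM
  have hm : 0 < m := by
    by_contra hm
    have : m = 0 := by omega
    subst this
    have : #𝒩 ≤ 1 := Finset.card_le_one_of_subsingleton 𝒩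
    omega
  obtain ⟨𝓕, h𝓕1, h𝓕2, h𝓕3⟩ := exists_family k L hk hL γ h0 hlac 𝒩 (fun n hn => (hmem n hn).1)
  -- m ≤ #Rat
  have hinj : Function.Injective γ := by
    intro i j hij
    by_contra hne
    have hpos : 0 < ‖γ i‖ := norm_pos_iff.mpr (h0 i)
    have hM8 : (8:ℝ) ≤ ((M:ℕ):ℝ) := by
      have : 8 ≤ M := by
        rw [hM]
        have : 1 ≤ k * L ^ 2 := Nat.one_le_iff_ne_zero.mpr (by positivity)
        nlinarith
      exact_mod_cast this
    rcases hlac i j hne with h | h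
    · rw [← hij] at h; nlinarith
    · rw [← hij] at h; nlinarith
  have hmR : m ≤ #(Rat γ) := by
    have h1 : (univ.image (fun j : Fin m => ‖γ ⟨0, hm⟩‖⁻¹ • γ j)) ⊆ Rat γ := by
      intro x hx
      rw [Finset.mem_image] at hx
      obtain ⟨j, -, rfl⟩ := hx
      exact mem_Rat γ _ _
    have h3 : #(univ.image (fun j : Fin m => ‖γ ⟨0, hm⟩‖⁻¹ • γ j)) = m := by
      rw [Finset.card_image_of_injective]
      · simp
      · intro i j hij
        simp only at hij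
        have : ‖γ ⟨0, hm⟩‖⁻¹ ≠ 0 := inv_ne_zero (norm_ne_zero_iff.mpr (h0 _))
        exact hinj (smul_right_injective _ this hij)
    calc m = _ := h3.symm
      _ ≤ _ := Finset.card_le_card h1
  have hnum := hC m (#(Rat γ)) (#𝒩) (by omega) hmR h2 hlog
  -- weights
  let μ : (Fin m × Fin d → ZMod M) → ℝ := fun z =>
    (volume (Set.Icc (0 : Fin d → ℝ) 1 ∩ {x | Dg γ L M x = z})).toReal
  have hvolI : volume (Set.Icc (0 : Fin d → ℝ) 1) = 1 := by
    rw [Real.volume_Icc_pi]; simp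
  have hfin : ∀ z, volume (Set.Icc (0 : Fin d → ℝ) 1 ∩ {x | Dg γ L M x = z}) ≠ ⊤ := by
    intro z
    have : volume (Set.Icc (0 : Fin d → ℝ) 1 ∩ {x | Dg γ L M x = z}) ≤ 1 := by
      rw [← hvolI]; exact measure_mono Set.inter_subset_left
    exact ne_top_of_le_ne_top ENNReal.one_ne_top this
  have hunion : ∀ P : Finset (Fin m × Fin d → ZMod M),
      volume ({x | Dg γ L M x ∈ P} ∩ Set.Icc (0 : Fin d → ℝ) 1) =
      ENNReal.ofReal (∑ z ∈ P, μ z) := by
    intro P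
    have h1 : ({x | Dg γ L M x ∈ P} ∩ Set.Icc (0 : Fin d → ℝ) 1) =
        ⋃ z ∈ P, (Set.Icc (0 : Fin d → ℝ) 1 ∩ {x | Dg γ L M x = z}) := by
      ext x
      simp only [Set.mem_inter_iff, Set.mem_ofPred_eq, Set.mem_iUnion, exists_prop]
      constructor
      · rintro ⟨h1, h2⟩; exact ⟨_, h1, h2, rfl⟩
      · rintro ⟨z, hz, h2, rfl⟩; exact ⟨hz, h2⟩
    rw [h1, measure_biUnion_finset]
    · rw [ENNReal.ofReal_sum_of_nonneg (fun z _ => ENNReal.toReal_nonneg)]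
      apply Finset.sum_congr rfl
      intro z _
      exact (ENNReal.ofReal_toReal (hfin z)).symm
    · intro z _ z' _ hne
      apply Set.disjoint_left.mpr
      intro x hx hx'
      exact hne (hx.2.symm.trans hx'.2)
    · intro z _
      exact measurableSet_Icc.inter (measurable_Dg γ L M z)
  have hsum : ∑ z, μ z ≤ 1 := by
    have h1 := hunion Finset.univ
    have h2 : volume ({x | Dg γ L M x ∈ (Finset.univ : Finset (Fin m × Fin d → ZMod M))} ∩
        Set.Icc (0 : Fin d → ℝ) 1) ≤ 1 := by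
      rw [← hvolI]; exact measure_mono Set.inter_subset_right
    rw [h1] at h2
    rw [← ENNReal.ofReal_one] at h2
    exact (ENNReal.ofReal_le_ofReal_iff zero_le_one).mp h2
  have hB : (#𝓕 : ℝ) * ((q : ℝ) / (q + 1)) ^ #𝒩 < 1 / 2 := by
    refine lt_of_le_of_lt ?_ hnum
    apply mul_le_mul_of_nonneg_right _ (by positivity)
    have : #𝓕 ≤ (m * d * (#𝒩 * ((2 * k + 1) * (8 * k * L ^ 2))) + 1) ^
        (m * d + (#(Rat γ) * d + 1)) := by
      simpa using h𝓕1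
    exact_mod_cast this
  obtain ⟨P, hP1, hP2⟩ := exists_hitting μ (fun z => ENNReal.toReal_nonneg) hsum 𝓕 (#𝒩) q hq1
    h𝓕2 hB
  refine ⟨{x | Dg γ L M x ∈ P}, ?_, ?_, ?_⟩
  · have : {x | Dg γ L M x ∈ P} = ⋃ z ∈ P, {x | Dg γ L M x = z} := by
      ext x; simp
    rw [this]
    exact Finset.measurableSet_biUnion _ (fun z _ => measurable_Dg γ L M z)
  · rw [hunion]
    exact (ENNReal.ofReal_le_ofReal hP1).trans hqε
  · intro t T hT
    obtain ⟨F, hF, hFz⟩ := h𝓕3 (t + T x₀) T hT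
    obtain ⟨z, hz⟩ := hP2 F hF
    rw [Finset.mem_inter] at hz
    obtain ⟨n, hn, hnz⟩ := hFz z hz.1
    refine ⟨_, (hmem n hn).2, ?_⟩
    simp only [Set.mem_ofPred_eq]
    rw [map_add, ← add_assoc, hnz]
    exact hz.2

/-- **Entropy criterion.** -/
theorem not_universal_of_criterion {d k : ℕ} (hk : 1 ≤ k) (E : Set (Fin d → ℝ))
    (hE : Criterion k E) : ¬ MeasureUniversal E := by
  intro hU
  obtain ⟨ε, hεpos, hεsum⟩ := ENNReal.exists_pos_sum_of_countable' (ε := 1) one_ne_zero ℕ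
  choose H hHm hHv hHt using fun L : ℕ => hitting hk E hE (L + 1) (by omega) (ε L) (hεpos L)
  set K : Set (Fin d → ℝ) := Set.Icc 0 1 \ ⋃ L, H L with hK
  have hvolI : volume (Set.Icc (0 : Fin d → ℝ) 1) = 1 := by
    rw [Real.volume_Icc_pi]; simp
  have hKm : MeasurableSet K := measurableSet_Icc.diff (MeasurableSet.iUnion hHm)
  have hKpos : 0 < volume K := by
    by_contra hcon
    have h0 : volume K = 0 := by simpa using hcon
    have h1 : Set.Icc (0 : Fin d → ℝ) 1 ⊆ K ∪ ⋃ L, (H L ∩ Set.Icc 0 1) := by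
      intro x hx
      by_cases hxH : x ∈ ⋃ L, H L
      · right
        rw [Set.mem_iUnion] at hxH ⊢
        obtain ⟨L, hL⟩ := hxH
        exact ⟨L, hL, hx⟩
      · left; exact ⟨hx, hxH⟩
    have h2 : (1 : ENNReal) ≤ 0 + ∑' L, ε L := by
      calc (1 : ENNReal) = volume (Set.Icc (0 : Fin d → ℝ) 1) := hvolI.symm
        _ ≤ volume (K ∪ ⋃ L, (H L ∩ Set.Icc 0 1)) := measure_mono h1
        _ ≤ volume K + volume (⋃ L, (H L ∩ Set.Icc 0 1)) := measure_union_le _ _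
        _ ≤ 0 + ∑' L, volume (H L ∩ Set.Icc 0 1) := by
            rw [h0]; exact add_le_add le_rfl (measure_iUnion_le _)
        _ ≤ _ := add_le_add le_rfl (ENNReal.tsum_le_tsum hHv)
    rw [zero_add] at h2
    exact absurd hεsum (not_lt.mpr h2)
  obtain ⟨t, T, hT⟩ := hU K hKm hKpos
  -- bi-Lipschitz constant
  obtain ⟨L, hL⟩ : ∃ L : ℕ, BiL (L + 1) T := by
    let Tc := T.toContinuousLinearEquiv
    obtain ⟨L, hL⟩ := exists_nat_ge (max ‖(Tc : (Fin d → ℝ) →L[ℝ] (Fin d → ℝ))‖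
      ‖(Tc.symm : (Fin d → ℝ) →L[ℝ] (Fin d → ℝ))‖)
    refine ⟨L, fun v => ⟨?_, ?_⟩⟩
    · calc ‖T v‖ = ‖(Tc : (Fin d → ℝ) →L[ℝ] (Fin d → ℝ)) v‖ := rfl
        _ ≤ ‖(Tc : (Fin d → ℝ) →L[ℝ] (Fin d → ℝ))‖ * ‖v‖ := ContinuousLinearMap.le_opNorm _ _
        _ ≤ ((L + 1 : ℕ) : ℝ) * ‖v‖ := by
            apply mul_le_mul_of_nonneg_right _ (norm_nonneg _)
            push_cast
            linarith [(le_max_left _ _).trans hL]
    · have h1 : v = Tc.symm (T v) := (Tc.symm_apply_apply v).symm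
      calc ‖v‖ = ‖(Tc.symm : (Fin d → ℝ) →L[ℝ] (Fin d → ℝ)) (T v)‖ := by
            conv_lhs => rw [h1]
            rfl
        _ ≤ ‖(Tc.symm : (Fin d → ℝ) →L[ℝ] (Fin d → ℝ))‖ * ‖T v‖ :=
            ContinuousLinearMap.le_opNorm _ _
        _ ≤ ((L + 1 : ℕ) : ℝ) * ‖T v‖ := by
            apply mul_le_mul_of_nonneg_right _ (norm_nonneg _)
            push_cast
            linarith [(le_max_right _ _).trans hL]
  obtain ⟨e, he, heH⟩ := hHt L t T hL
  exact (hT e he).2 (Set.mem_iUnion.mpr ⟨L, heH⟩)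

end Pool.Agent.Helper69.Sim
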