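import Mathlib
import Pool.Agent.Helper69.Sim.Main

/-! Lacunary configurations inside finite sets, and the corollaries. -/

open Finset MeasureTheory

namespace Pool.Agent.Helper69.Sim

/-- transport of the criterion data from a general finite index type -/
lemma criterion_of_fintype {d k : ℕ} (E : Set (Fin d → ℝ))
    (h : ∀ Q C : ℕ, ∃ (ι : Type) (_ : Fintype ι) (γ : ι → Fin d → ℝ) (x₀ : Fin d → ℝ)
      (𝒩 : Finset (ι → ℤ)), (∀ i, γ i ≠ 0) ∧
      (∀ i j, i ≠ j → (Q : ℝ) * ‖γ i‖ ≤ ‖γ j‖ ∨ (Q : ℝ) * ‖γ j‖ ≤ ‖γ i‖) ∧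
      (∀ n ∈ 𝒩, ∑ i, |n i| ≤ k ∧ x₀ + ∑ i, n i • γ i ∈ E) ∧ 2 ≤ #𝒩 ∧
      (C : ℝ) * #(Rat γ) * Real.log #𝒩 ≤ #𝒩) : Criterion k E := by
  classical
  intro Q C
  obtain ⟨ι, _, γ, x₀, 𝒩, h0, h1, h2, h3, h4⟩ := h Q C
  let e := Fintype.equivFin ι
  have hinj : Function.Injective (fun (n : ι → ℤ) (i : Fin (Fintype.card ι)) => n (e.symm i)) := by
    intro n n' hn
    ext i
    have := congrFun hn (e i)
    simpa using this
  have hR : Rat (fun i => γ (e.symm i)) = Rat γ := by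
    ext x
    simp only [Rat, Finset.mem_image, Finset.mem_univ, true_and]
    constructor
    · rintro ⟨p, rfl⟩; exact ⟨(e.symm p.1, e.symm p.2), rfl⟩
    · rintro ⟨p, rfl⟩; exact ⟨(e p.1, e p.2), by simp⟩
  have hcard : #(𝒩.image (fun (n : ι → ℤ) (i : Fin (Fintype.card ι)) => n (e.symm i))) = #𝒩 :=
    Finset.card_image_of_injective _ hinj
  refine ⟨Fintype.card ι, fun i => γ (e.symm i), x₀,
    𝒩.image (fun n i => n (e.symm i)), fun i => h0 _, fun i j hij => h1 _ _ ?_, ?_, ?_, ?_⟩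
  · exact fun h => hij (e.symm.injective h)
  · intro n hn
    rw [Finset.mem_image] at hn
    obtain ⟨n', hn', rfl⟩ := hn
    obtain ⟨ha, hb⟩ := h2 n' hn'
    refine ⟨?_, ?_⟩
    · rw [Equiv.sum_comp e.symm (fun i => |n' i|)]; exact ha
    · rw [Equiv.sum_comp e.symm (fun i => n' i • γ i)]; exact hb
  · rw [hcard]; exact h3
  · rw [hcard, hR]; exact h4

/-- `Γ` is `Q`-lacunary. -/
def LacOn {d : ℕ} (Q : ℕ) (Γ : Finset (Fin d → ℝ)) : Prop :=
  (∀ x ∈ Γ, x ≠ 0) ∧ ∀ x ∈ Γ, ∀ y ∈ Γ, x ≠ y → (Q : ℝ) * ‖x‖ ≤ ‖y‖ ∨ (Q : ℝ) * ‖y‖ ≤ ‖x‖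

lemma pigeon {d : ℕ} (Q : ℕ) (hQ : 1 ≤ Q) (n : ℕ) (F : Finset (Fin d → ℝ)) (hF : 2 ≤ #F)
    (hn : (4 * Q + 1) ^ d * n ≤ #F) :
    ∃ D : ℝ, 0 < D ∧ (∃ u ∈ F, ∃ v ∈ F, ‖u - v‖ = D) ∧
      ∃ F' ⊆ F, n ≤ #F' ∧ ∀ x ∈ F', ∀ y ∈ F', 2 * Q * ‖x - y‖ ≤ D := by
  classical
  have hQR : (1:ℝ) ≤ Q := by exact_mod_cast hQ
  have hFne : (F ×ˢ F).Nonempty := by
    have : F.Nonempty := Finset.card_pos.mp (by omega)
    exact this.product this
  obtain ⟨⟨u, v⟩, huv, hmax⟩ := Finset.exists_max_image (F ×ˢ F) (fun p => ‖p.1 - p.2‖) hFne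
  rw [Finset.mem_product] at huv
  set D := ‖u - v‖ with hD
  have hmax' : ∀ x ∈ F, ∀ y ∈ F, ‖x - y‖ ≤ D := fun x hx y hy =>
    hmax (x, y) (Finset.mem_product.mpr ⟨hx, hy⟩)
  have hDpos : 0 < D := by
    obtain ⟨a, b, ha, hb, hab⟩ := Finset.one_lt_card_iff.mp (show 1 < #F by omega)
    exact lt_of_lt_of_le (norm_pos_iff.mpr (sub_ne_zero.mpr hab)) (hmax' a ha b hb)
  refine ⟨D, hDpos, ⟨u, huv.1, v, huv.2, rfl⟩, ?_⟩
  let cell : (Fin d → ℝ) → (Fin d → ℤ) := fun x c => ⌊(x c - u c) * (2 * Q) / D⌋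
  let tgt : Finset (Fin d → ℤ) := Fintype.piFinset (fun _ => Finset.Icc (-(2 * Q : ℤ)) (2 * Q))
  have htc : tgt.card = (4 * Q + 1) ^ d := by
    simp only [tgt, Fintype.card_piFinset, Int.card_Icc, Finset.prod_const, Finset.card_univ,
      Fintype.card_fin]
    congr 1
    omega
  have hmaps : ∀ x ∈ F, cell x ∈ tgt := by
    intro x hx
    rw [Fintype.mem_piFinset]
    intro c
    rw [Finset.mem_Icc]
    have h1 : |x c - u c| ≤ D := by
      have := norm_le_pi_norm (x - u) c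
      rw [Real.norm_eq_abs] at this
      exact this.trans (hmax' x hx u huv.1)
    have h2 := abs_le.mp h1
    simp only [cell]
    constructor
    · rw [Int.le_floor]
      push_cast
      rw [le_div_iff₀ hDpos]
      nlinarith [h2.1]
    · have h3 : (x c - u c) * (2 * Q) / D ≤ ((2 * Q : ℤ) : ℝ) := by
        push_cast
        rw [div_le_iff₀ hDpos]
        nlinarith [h2.2]
      have := Int.floor_le_floor h3
      rwa [Int.floor_intCast] at this
  have htne : tgt.Nonempty := by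
    rw [← Finset.card_pos, htc]; positivity
  obtain ⟨z, hz, hzn⟩ := Finset.exists_le_card_fiber_of_mul_le_card_of_maps_to hmaps htne
    (by rw [htc]; exact hn)
  refine ⟨F.filter (fun x => cell x = z), Finset.filter_subset _ _, hzn, ?_⟩
  intro x hx y hy
  rw [Finset.mem_filter] at hx hy
  have hc : ‖x - y‖ ≤ D / (2 * Q) := by
    rw [pi_norm_le_iff_of_nonneg (by positivity)]
    intro c
    rw [Pi.sub_apply, Real.norm_eq_abs]
    have h1 : ⌊(x c - u c) * (2 * Q) / D⌋ = ⌊(y c - u c) * (2 * Q) / D⌋ := by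
      have := congrFun (hx.2.trans hy.2.symm) c
      exact this
    have h2 := Int.abs_sub_lt_one_of_floor_eq_floor h1
    have h3 : (x c - u c) * (2 * Q) / D - (y c - u c) * (2 * Q) / D =
        (x c - y c) * (2 * Q / D) := by ring
    rw [h3, abs_mul, abs_of_pos (show (0:ℝ) < 2 * Q / D by positivity)] at h2
    rw [le_div_iff₀ (by positivity)]
    have h4 : |x c - y c| * (2 * Q / D) = |x c - y c| * (2 * Q) / D := by ring
    rw [h4, div_lt_one hDpos] at h2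
    exact h2.le
  calc 2 * Q * ‖x - y‖ ≤ 2 * Q * (D / (2 * Q)) := mul_le_mul_of_nonneg_left hc (by positivity)
    _ = D := by field_simp

/-- every large finite set contains a translate of a long lacunary set -/
lemma lac_extract (d Q : ℕ) (hQ : 2 ≤ Q) (s : ℕ) : ∃ n : ℕ, 1 ≤ n ∧ ∀ F : Finset (Fin d → ℝ),
    n ≤ #F → ∃ x₀ ∈ F, ∃ Γ : Finset (Fin d → ℝ), #Γ = s ∧ LacOn Q Γ ∧ ∀ g ∈ Γ, x₀ + g ∈ F := by
  classical
  have hQR : (2:ℝ) ≤ Q := by exact_mod_cast hQ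
  induction s with
  | zero =>
    refine ⟨1, le_rfl, fun F hF => ?_⟩
    obtain ⟨x, hx⟩ := Finset.card_pos.mp (show 0 < #F by omega)
    exact ⟨x, hx, ∅, rfl, ⟨by simp, by simp⟩, by simp⟩
  | succ s ih =>
    obtain ⟨n, hn1, hn⟩ := ih
    refine ⟨(4 * Q + 1) ^ d * n + 2, by omega, fun F hF => ?_⟩
    obtain ⟨D, hD, ⟨u, hu, v, hv, huv⟩, F', hF'F, hF'n, hF'⟩ :=
      pigeon Q (by omega) n F (by omega) (by omega)
    obtain ⟨x₀, hx₀, Γ, hΓs, hΓl, hΓF⟩ := hn F' hF'n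
    obtain ⟨g, hg, hgD⟩ : ∃ g ∈ F, D / 2 ≤ ‖g - x₀‖ := by
      by_contra hcon
      push Not at hcon
      have h1 := hcon u hu
      have h2 := hcon v hv
      have h3 : ‖u - v‖ ≤ ‖u - x₀‖ + ‖v - x₀‖ := by
        have : u - v = (u - x₀) - (v - x₀) := by abel
        rw [this]; exact norm_sub_le _ _
      rw [huv] at h3
      linarith
    have hsm : ∀ y ∈ Γ, (Q:ℝ) * ‖y‖ ≤ ‖g - x₀‖ := by
      intro y hy
      have h1 := hF' (x₀ + y) (hΓF y hy) x₀ hx₀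
      rw [add_sub_cancel_left] at h1
      linarith
    have hgpos : 0 < ‖g - x₀‖ := by linarith
    have hgn : g - x₀ ∉ Γ := by
      intro h
      have := hsm _ h
      nlinarith
    refine ⟨x₀, hF'F hx₀, insert (g - x₀) Γ, ?_, ⟨?_, ?_⟩, ?_⟩
    · rw [Finset.card_insert_of_notMem hgn, hΓs]
    · intro x hx
      rw [Finset.mem_insert] at hx
      rcases hx with rfl | hx
      · exact norm_pos_iff.mp hgpos
      · exact hΓl.1 x hx
    · intro x hx y hy hxy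
      rw [Finset.mem_insert] at hx hy
      rcases hx with rfl | hx
      · rcases hy with rfl | hy
        · exact absurd rfl hxy
        · right; exact hsm y hy
      · rcases hy with rfl | hy
        · left; exact hsm x hx
        · exact hΓl.2 x hx y hy hxy
    · intro y hy
      rw [Finset.mem_insert] at hy
      rcases hy with rfl | hy
      · rw [add_sub_cancel]; exact hg
      · exact hF'F (hΓF y hy)

/-- making a lacunary set compatible with a given finite set -/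
lemma merge {d : ℕ} (Q : ℕ) (hQ : 2 ≤ Q) (A B : Finset (Fin d → ℝ))
    (hB : LacOn (Q ^ 2) B) (s : ℕ) (hs : #A + s ≤ #B) :
    ∃ B' ⊆ B, #B' = s ∧ ∀ x ∈ A, ∀ y ∈ B', (Q : ℝ) * ‖x‖ ≤ ‖y‖ ∨ (Q : ℝ) * ‖y‖ ≤ ‖x‖ := by
  classical
  have hQR : (2:ℝ) ≤ Q := by exact_mod_cast hQ
  let Bad := B.filter (fun y => ∃ x ∈ A, ‖y‖ < Q * ‖x‖ ∧ ‖x‖ < Q * ‖y‖)
  have hBad : #Bad ≤ #A := by
    have hch : ∀ y ∈ Bad, ∃ x ∈ A, ‖y‖ < Q * ‖x‖ ∧ ‖x‖ < Q * ‖y‖ := fun y hy =>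
      (Finset.mem_filter.mp hy).2
    choose! f hf using hch
    apply Finset.card_le_card_of_injOn f (fun y hy => (hf y hy).1)
    intro y hy y' hy' hyy'
    by_contra hne
    have h1 := hf y hy
    have h2 := hf y' hy'
    rw [← hyy'] at h2
    have hyB : y ∈ B := (Finset.mem_filter.mp hy).1
    have hyB' : y' ∈ B := (Finset.mem_filter.mp hy').1
    rcases hB.2 y hyB y' hyB' hne with h | h
    · push_cast at h
      have : ‖y'‖ < Q ^ 2 * ‖y‖ := by
        calc ‖y'‖ < Q * ‖f y‖ := h2.2.1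
          _ ≤ Q * (Q * ‖y‖) := mul_le_mul_of_nonneg_left h1.2.2.le (by linarith)
          _ = _ := by ring
      linarith
    · push_cast at h
      have : ‖y‖ < Q ^ 2 * ‖y'‖ := by
        calc ‖y‖ < Q * ‖f y‖ := h1.2.1
          _ ≤ Q * (Q * ‖y'‖) := mul_le_mul_of_nonneg_left h2.2.2.le (by linarith)
          _ = _ := by ring
      linarith
  have hle : s ≤ #(B \ Bad) := by
    have h1 : #(B \ Bad) = #B - #Bad := Finset.card_sdiff_of_subset (Finset.filter_subset _ _)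
    omega
  obtain ⟨B', hB's, hB'c⟩ := Finset.exists_subset_card_eq hle
  refine ⟨B', hB's.trans Finset.sdiff_subset, hB'c, ?_⟩
  intro x hx y hy
  have hy2 := hB's hy
  rw [Finset.mem_sdiff, Finset.mem_filter] at hy2
  by_contra hcon
  push Not at hcon
  exact hy2.2 ⟨hy2.1, x, hx, hcon.1, hcon.2⟩

lemma LacOn.mono {d Q : ℕ} {Γ Γ' : Finset (Fin d → ℝ)} (h : LacOn Q Γ) (hs : Γ' ⊆ Γ) :
    LacOn Q Γ' := ⟨fun x hx => h.1 x (hs hx), fun x hx y hy => h.2 x (hs hx) y (hs hy)⟩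

lemma LacOn.le {d Q Q' : ℕ} {Γ : Finset (Fin d → ℝ)} (h : LacOn Q' Γ) (hs : Q ≤ Q') :
    LacOn Q Γ := by
  have hsR : (Q:ℝ) ≤ Q' := by exact_mod_cast hs
  refine ⟨h.1, fun x hx y hy hxy => ?_⟩
  rcases h.2 x hx y hy hxy with h1 | h1
  · left; exact (mul_le_mul_of_nonneg_right hsR (norm_nonneg _)).trans h1
  · right; exact (mul_le_mul_of_nonneg_right hsR (norm_nonneg _)).trans h1

/-- **Finite threefold sumsets.** -/
theorem criterion_of_sumsets {d : ℕ} (E : Set (Fin d → ℝ))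
    (h : ∀ n : ℕ, ∃ F₁ F₂ F₃ : Finset (Fin d → ℝ), #F₁ = n ∧ #F₂ = n ∧ #F₃ = n ∧
      ∀ a ∈ F₁, ∀ b ∈ F₂, ∀ c ∈ F₃, a + b + c ∈ E) : Criterion 3 E := by
  classical
  apply criterion_of_fintype
  intro Q0 C
  set Q : ℕ := Q0 + 2 with hQ
  set s : ℕ := (54 * (C + 1)) ^ 2 with hs
  obtain ⟨n, hn1, hn⟩ := lac_extract d (Q ^ 2) (by nlinarith) (3 * s)
  obtain ⟨F₁, F₂, F₃, hF₁, hF₂, hF₃, hF⟩ := h n
  obtain ⟨x₁, -, Γ₁, hΓ₁, hl₁, hm₁⟩ := hn F₁ hF₁.ge
  obtain ⟨x₂, -, Γ₂, hΓ₂, hl₂, hm₂⟩ := hn F₂ hF₂.ge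
  obtain ⟨x₃, -, Γ₃, hΓ₃, hl₃, hm₃⟩ := hn F₃ hF₃.ge
  obtain ⟨G₁, hG₁, hG₁c⟩ := Finset.exists_subset_card_eq (show s ≤ #Γ₁ by omega)
  obtain ⟨G₂, hG₂, hG₂c, hG₂l⟩ := merge Q (by omega) G₁ Γ₂ hl₂ s
    (by omega)
  have hc12 : #(G₁ ∪ G₂) ≤ 2 * s := (Finset.card_union_le _ _).trans (by omega)
  obtain ⟨G₃, hG₃, hG₃c, hG₃l⟩ := merge Q (by omega) (G₁ ∪ G₂) Γ₃ hl₃ s (by omega)
  have hQQ : Q ≤ Q ^ 2 := by nlinarith
  have L1 := (hl₁.mono hG₁).le hQQ
  have L2 := (hl₂.mono hG₂).le hQQ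
  have L3 := (hl₃.mono hG₃).le hQQ
  -- enumerate
  let e₁ : Fin s ≃ G₁ := (Fintype.equivFinOfCardEq (by rw [Fintype.card_coe, hG₁c])).symm
  let e₂ : Fin s ≃ G₂ := (Fintype.equivFinOfCardEq (by rw [Fintype.card_coe, hG₂c])).symm
  let e₃ : Fin s ≃ G₃ := (Fintype.equivFinOfCardEq (by rw [Fintype.card_coe, hG₃c])).symm
  let γ : Fin 3 × Fin s → Fin d → ℝ := fun p =>
    (![fun a => (e₁ a : Fin d → ℝ), fun a => (e₂ a : Fin d → ℝ), fun a => (e₃ a : Fin d → ℝ)] p.1)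
      p.2
  let nn : (Fin 3 → Fin s) → (Fin 3 × Fin s → ℤ) := fun f p => if f p.1 = p.2 then 1 else 0
  have hnn : Function.Injective nn := by
    intro f f' hff
    ext i
    have := congrFun hff (i, f i)
    simp only [nn, if_true] at this
    by_contra hne
    rw [if_neg (fun h => hne (by rw [h]))] at this
    exact one_ne_zero this
  refine ⟨Fin 3 × Fin s, inferInstance, γ, x₁ + x₂ + x₃, Finset.univ.image nn, ?_, ?_, ?_, ?_, ?_⟩
  · rintro ⟨i, a⟩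
    fin_cases i
    · exact L1.1 _ (e₁ a).2
    · exact L2.1 _ (e₂ a).2
    · exact L3.1 _ (e₃ a).2
  · have hQ0 : (Q0:ℝ) ≤ Q := by rw [hQ]; push_cast; linarith
    suffices H : ∀ i j : Fin 3 × Fin s, i ≠ j → (Q : ℝ) * ‖γ i‖ ≤ ‖γ j‖ ∨ (Q : ℝ) * ‖γ j‖ ≤ ‖γ i‖ by
      intro i j hij
      rcases H i j hij with h1 | h1
      · left; exact (mul_le_mul_of_nonneg_right hQ0 (norm_nonneg _)).trans h1
      · right; exact (mul_le_mul_of_nonneg_right hQ0 (norm_nonneg _)).trans h1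
    rintro ⟨i, a⟩ ⟨j, b⟩ hij
    have h11 : i = j → a ≠ b := fun h1 h2 => hij (by rw [h1, h2])
    fin_cases i <;> fin_cases j
    · exact L1.2 _ (e₁ a).2 _ (e₁ b).2
        (fun h => h11 rfl (e₁.injective (Subtype.ext h)))
    · exact hG₂l _ (e₁ a).2 _ (e₂ b).2
    · exact hG₃l _ (Finset.mem_union_left _ (e₁ a).2) _ (e₃ b).2
    · exact (hG₂l _ (e₁ b).2 _ (e₂ a).2).symm
    · exact L2.2 _ (e₂ a).2 _ (e₂ b).2
        (fun h => h11 rfl (e₂.injective (Subtype.ext h)))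
    · exact hG₃l _ (Finset.mem_union_right _ (e₂ a).2) _ (e₃ b).2
    · exact (hG₃l _ (Finset.mem_union_left _ (e₁ b).2) _ (e₃ a).2).symm
    · exact (hG₃l _ (Finset.mem_union_right _ (e₂ b).2) _ (e₃ a).2).symm
    · exact L3.2 _ (e₃ a).2 _ (e₃ b).2
        (fun h => h11 rfl (e₃.injective (Subtype.ext h)))
  · intro n hn
    rw [Finset.mem_image] at hn
    obtain ⟨f, -, rfl⟩ := hn
    constructor
    · rw [Fintype.sum_prod_type]
      have : ∀ i : Fin 3, ∑ a : Fin s, |nn f (i, a)| = 1 := by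
        intro i
        rw [Finset.sum_eq_single (f i)]
        · simp [nn]
        · intro b _ hb
          simp [nn, Ne.symm hb]
        · simp
      simp [this]
    · have h1 : ∑ p, nn f p • γ p = (e₁ (f 0) : Fin d → ℝ) + e₂ (f 1) + e₃ (f 2) := by
        rw [Fintype.sum_prod_type]
        have : ∀ i : Fin 3, ∑ a : Fin s, nn f (i, a) • γ (i, a) = γ (i, f i) := by
          intro i
          rw [Finset.sum_eq_single (f i)]
          · simp [nn]
          · intro b _ hb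
            simp [nn, Ne.symm hb]
          · simp
        simp only [this]
        rw [Fin.sum_univ_three]
        rfl
      rw [h1]
      have h2 : x₁ + x₂ + x₃ + ((e₁ (f 0) : Fin d → ℝ) + e₂ (f 1) + e₃ (f 2)) =
          (x₁ + e₁ (f 0)) + (x₂ + e₂ (f 1)) + (x₃ + e₃ (f 2)) := by abel
      rw [h2]
      exact hF _ (hm₁ _ (hG₁ (e₁ (f 0)).2)) _ (hm₂ _ (hG₂ (e₂ (f 1)).2)) _
        (hm₃ _ (hG₃ (e₃ (f 2)).2))
  · rw [Finset.card_image_of_injective _ hnn]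
    simp only [Finset.card_univ, Fintype.card_pi, Fintype.card_fin, Finset.prod_const]
    have : 2 ≤ s := by
      rw [hs]
      calc 2 ≤ 54 * (C + 1) := by omega
        _ ≤ (54 * (C + 1)) ^ 2 := Nat.le_self_pow (by norm_num) _
    calc 2 ≤ s := this
      _ = s ^ 1 := (pow_one _).symm
      _ ≤ s ^ 3 := Nat.pow_le_pow_right (by omega) (by norm_num)
  · rw [Finset.card_image_of_injective _ hnn]
    simp only [Finset.card_univ, Fintype.card_pi, Fintype.card_fin, Finset.prod_const]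
    have hRat : #(Rat γ) ≤ 9 * s ^ 2 := by
      unfold Rat
      refine Finset.card_image_le.trans ?_
      simp only [Finset.card_univ, Fintype.card_prod, Fintype.card_fin]
      apply le_of_eq; ring
    have hsR : (s:ℝ) = (54 * (C + 1)) ^ 2 := by rw [hs]; push_cast; ring
    have hlog : Real.log ((s:ℕ) ^ 3 : ℕ) ≤ 6 * (54 * (C + 1)) := by
      push_cast
      rw [Real.log_pow, hsR, Real.log_pow]
      have h1 := Real.log_le_sub_one_of_pos (show (0:ℝ) < 54 * (C + 1) by positivity)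
      push_cast
      linarith
    have hlog0 : 0 ≤ Real.log ((s:ℕ) ^ 3 : ℕ) := Real.log_natCast_nonneg _
    calc (C:ℝ) * #(Rat γ) * Real.log ((s:ℕ) ^ 3 : ℕ)
        ≤ C * (9 * s ^ 2) * (6 * (54 * (C + 1))) := by
          apply mul_le_mul _ hlog hlog0 (by positivity)
          apply mul_le_mul_of_nonneg_left _ (Nat.cast_nonneg C)
          exact_mod_cast hRat
      _ ≤ ((s ^ 3 : ℕ) : ℝ) := by
          push_cast
          have h2 : (C:ℝ) * 9 * (6 * (54 * (C + 1))) ≤ s := by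
            rw [hsR]
            have : (0:ℝ) ≤ C := Nat.cast_nonneg C
            nlinarith
          have e1 : (C:ℝ) * (9 * (s:ℝ) ^ 2) * (6 * (54 * ((C:ℝ) + 1))) =
              (C * 9 * (6 * (54 * (C + 1)))) * (s:ℝ) ^ 2 := by ring
          have e2 : (s:ℝ) ^ 3 = s * (s:ℝ) ^ 2 := by ring
          rw [e1, e2]
          exact mul_le_mul_of_nonneg_right h2 (by positivity)

end Pool.Agent.Helper69.Sim
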