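import Mathlib
import Pool.Agent.Helper69.Sim.Lac

/-! Twofold sums with few ratios. -/

open Finset MeasureTheory
open scoped Pointwise

namespace Pool.Agent.Helper69.Sim

lemma geo_lac {d : ℕ} (s Q : ℕ) (hs : Q ≤ 2 ^ s) (x y : ℝ) (hx : 0 < x) (hxy : (2:ℝ) ^ s * x ≤ y)
    (v : Fin d → ℝ) : (Q : ℝ) * ‖x • v‖ ≤ ‖y • v‖ := by
  have hy : 0 < y := lt_of_lt_of_le (by positivity) hxy
  rw [norm_smul, norm_smul, Real.norm_eq_abs, Real.norm_eq_abs, abs_of_pos hx, abs_of_pos hy]
  have h4 : (Q : ℝ) ≤ 2 ^ s := by exact_mod_cast hs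
  have h5 : (Q : ℝ) * x ≤ y := (mul_le_mul_of_nonneg_right h4 hx.le).trans hxy
  calc (Q : ℝ) * (x * ‖v‖) = (Q * x) * ‖v‖ := by ring
    _ ≤ y * ‖v‖ := mul_le_mul_of_nonneg_right h5 (norm_nonneg _)

/-- **Twofold sums with few ratios.** -/
theorem criterion_of_ratios {d : ℕ} (E : Set (Fin d → ℝ))
    (h : ∀ C : ℕ, ∃ (A : Finset ℝ) (v w x₀ : Fin d → ℝ), (∀ x ∈ A, 0 < x) ∧
      (∀ x ∈ A, ∀ y ∈ A, x < y → 2 * x ≤ y) ∧ v ≠ 0 ∧
      w ≠ 0 ∧ 2 ≤ #A ∧ (C : ℝ) * #(A / A) * Real.log #A ≤ (#A : ℝ) ^ 2 ∧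
      ∀ a ∈ A, ∀ b ∈ A, x₀ + a • v + b • w ∈ E) : Criterion 2 E := by
  classical
  apply criterion_of_fintype
  intro Q0 C
  set Q : ℕ := Q0 + 2 with hQ
  set s : ℕ := Q ^ 2 + 1 with hs
  have hs1 : 1 ≤ s := by rw [hs]; omega
  have hsQ : Q ^ 2 ≤ 2 ^ (Q ^ 2) := Nat.lt_two_pow_self.le
  obtain ⟨A, v, w, x₀, hpos, hlac2, hv, hw, hA2, hlog, hE⟩ := h (128 * C * s ^ 2 + 8 * s)
  have hsR : (1:ℝ) ≤ s := by exact_mod_cast hs1
  have hAR : (2:ℝ) ≤ #A := by exact_mod_cast hA2
  have hlog2 : (1/2:ℝ) ≤ Real.log #A := by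
    have h1 := Real.log_two_gt_d9
    have h2 := Real.log_le_log (by norm_num) hAR
    linarith
  -- #A ≤ #(A / A)
  have hAA : #A ≤ #(A / A) := by
    obtain ⟨a0, ha0⟩ := Finset.card_pos.mp (show 0 < #A by omega)
    have ha0' := hpos a0 ha0
    calc #A = #(A.image (fun a => a / a0)) := by
          rw [Finset.card_image_of_injective]
          intro a b hab
          simp only at hab
          field_simp at hab
          exact hab
      _ ≤ _ := by
          apply Finset.card_le_card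
          intro x hx
          rw [Finset.mem_image] at hx
          obtain ⟨a, ha, rfl⟩ := hx
          exact Finset.div_mem_div ha ha0
  have hAAR : (#A:ℝ) ≤ #(A / A) := by exact_mod_cast hAA
  -- #A ≥ 4 s
  have hA4 : 4 * s ≤ #A := by
    have h1 : (8 * s : ℝ) * #A * (1/2) ≤ (#A:ℝ) ^ 2 := by
      calc (8 * s : ℝ) * #A * (1/2) ≤ ((128 * C * s ^ 2 + 8 * s : ℕ) : ℝ) * #(A / A) *
            Real.log #A := by
            apply mul_le_mul _ hlog2 (by norm_num) (by positivity)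
            apply mul_le_mul _ hAAR (by positivity) (by positivity)
            push_cast
            have : (0:ℝ) ≤ 128 * C * s ^ 2 := by positivity
            linarith
        _ ≤ _ := hlog
    have h2 : (4 * s : ℝ) ≤ #A := by nlinarith
    exact_mod_cast h2
  set m : ℕ := #A / (2 * s) with hm
  have hm2 : 2 ≤ m := by
    rw [hm, Nat.le_div_iff_mul_le (by omega)]; linarith
  have hm3 : 2 * s * m ≤ #A := Nat.mul_div_le _ _
  have hm4 : #A ≤ 4 * s * m := by
    have h1 : #A < 2 * s * (m + 1) := by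
      rw [hm]; exact Nat.lt_mul_div_succ _ (by omega)
    have h2 : m + 1 ≤ 2 * m := by omega
    have h3 : 2 * s * (m + 1) ≤ 2 * s * (2 * m) := Nat.mul_le_mul_left _ h2
    linarith
  -- residue class
  obtain ⟨z, hz, hzc⟩ := Finset.exists_le_card_fiber_of_mul_le_card_of_maps_to
    (s := A) (t := Finset.Ico (0:ℤ) s) (f := fun a => ⌊Real.logb 2 a⌋ % (s:ℤ)) (n := 2 * m)
    (fun a _ => Finset.mem_Ico.mpr ⟨Int.emod_nonneg _ (by omega), Int.emod_lt_of_pos _ (by omega)⟩)
    (by rw [← Finset.card_pos]; simp; omega)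
    (by rw [Int.card_Ico]; simp; linarith)
  set A' := A.filter (fun a => ⌊Real.logb 2 a⌋ % (s:ℤ) = z) with hA'
  have hsep1 : ∀ a ∈ A', ∀ b ∈ A', a < b → (2:ℝ) ^ (Q ^ 2) * a ≤ b := by
    intro a ha b hb hab
    rw [hA', Finset.mem_filter] at ha hb
    have ha0 := hpos a ha.1
    have hb0 := hpos b hb.1
    have h2 := hlac2 a ha.1 b hb.1 hab
    have hl : Real.logb 2 a + 1 ≤ Real.logb 2 b := by
      have e1 : Real.logb 2 (2 * a) = 1 + Real.logb 2 a := by
        rw [Real.logb_mul (by norm_num) ha0.ne', Real.logb_self_eq_one (by norm_num)]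
      have e2 : Real.logb 2 (2 * a) ≤ Real.logb 2 b :=
        Real.logb_le_logb_of_le (by norm_num) (by positivity) h2
      linarith
    have hfl : ⌊Real.logb 2 a⌋ + 1 ≤ ⌊Real.logb 2 b⌋ := by
      rw [← Int.floor_add_one]; exact Int.floor_le_floor hl
    have h1 : (⌊Real.logb 2 b⌋ - ⌊Real.logb 2 a⌋) % (s:ℤ) = 0 := by
      rw [Int.sub_emod, ha.2, hb.2]; simp
    obtain ⟨c, hc⟩ := Int.dvd_of_emod_eq_zero h1
    have hc0 : 1 ≤ c := by
      by_contra hcon
      push Not at hcon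
      have : (s:ℤ) * c ≤ s * 0 := mul_le_mul_of_nonneg_left (by omega) (by omega)
      omega
    have h3 : (s:ℤ) * 1 ≤ s * c := mul_le_mul_of_nonneg_left hc0 (by omega)
    have h4 : ⌊Real.logb 2 a⌋ + (Q ^ 2 + 1 : ℕ) ≤ ⌊Real.logb 2 b⌋ := by
      rw [← hs]; linarith
    have h5 : Real.logb 2 a + (Q ^ 2 : ℕ) ≤ Real.logb 2 b := by
      have e1 := Int.lt_floor_add_one (Real.logb 2 a)
      have e2 := Int.floor_le (Real.logb 2 b)
      have e3 : (⌊Real.logb 2 a⌋ : ℝ) + ((Q ^ 2 + 1 : ℕ) : ℝ) ≤ ⌊Real.logb 2 b⌋ := by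
        exact_mod_cast h4
      push_cast at e3 ⊢
      linarith
    have h6 : Real.logb 2 ((2:ℝ) ^ (Q ^ 2) * a) ≤ Real.logb 2 b := by
      rw [Real.logb_mul (by positivity) ha0.ne', Real.logb_pow, Real.logb_self_eq_one (by norm_num)]
      linarith
    rwa [Real.logb_le_logb (by norm_num) (by positivity) hb0] at h6
  have hlac : ∀ u : Fin d → ℝ, u ≠ 0 → LacOn (Q ^ 2) (A'.image (fun a : ℝ => a • u)) := by
    intro u hu
    constructor
    · intro x hx
      rw [Finset.mem_image] at hx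
      obtain ⟨a, ha, rfl⟩ := hx
      exact smul_ne_zero (hpos a (Finset.mem_filter.mp ha).1).ne' hu
    · intro x hx y hy hxy
      rw [Finset.mem_image] at hx hy
      obtain ⟨a, ha, rfl⟩ := hx
      obtain ⟨b, hb, rfl⟩ := hy
      have hab : a ≠ b := fun h => hxy (by rw [h])
      have ha0 := hpos a (Finset.mem_filter.mp ha).1
      have hb0 := hpos b (Finset.mem_filter.mp hb).1
      rcases lt_or_gt_of_ne hab with h | h
      · left; exact geo_lac (Q ^ 2) (Q ^ 2) hsQ a b ha0 (hsep1 a ha b hb h) u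
      · right; exact geo_lac (Q ^ 2) (Q ^ 2) hsQ b a hb0 (hsep1 b hb a ha h) u
  have hinj : ∀ u : Fin d → ℝ, u ≠ 0 → Function.Injective (fun a : ℝ => a • u) :=
    fun u hu => smul_left_injective ℝ hu
  have hcv : ∀ u : Fin d → ℝ, u ≠ 0 → #(A'.image (fun a : ℝ => a • u)) = #A' :=
    fun u hu => Finset.card_image_of_injective _ (hinj u hu)
  obtain ⟨G₁, hG₁, hG₁c⟩ := Finset.exists_subset_card_eq
    (show m ≤ #(A'.image (fun a : ℝ => a • v)) by rw [hcv v hv]; omega)
  obtain ⟨G₂, hG₂, hG₂c, hG₂l⟩ := merge Q (by omega) G₁ (A'.image (fun a : ℝ => a • w))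
    (hlac w hw) m (by rw [hcv w hw]; omega)
  have hQQ : Q ≤ Q ^ 2 := by nlinarith
  have L1 := ((hlac v hv).mono hG₁).le hQQ
  have L2 := ((hlac w hw).mono hG₂).le hQQ
  let γ : G₁ ⊕ G₂ → Fin d → ℝ := Sum.elim Subtype.val Subtype.val
  let nn : G₁ × G₂ → (G₁ ⊕ G₂ → ℤ) := fun p =>
    Sum.elim (fun x => if x = p.1 then 1 else 0) (fun y => if y = p.2 then 1 else 0)
  have hnn : Function.Injective nn := by
    rintro ⟨x, y⟩ ⟨x', y'⟩ hff
    have h1 := congrFun hff (Sum.inl x)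
    have h2 := congrFun hff (Sum.inr y)
    simp only [nn, Sum.elim_inl, Sum.elim_inr, if_true] at h1 h2
    have e1 : x = x' := by
      by_contra hne; rw [if_neg hne] at h1; exact one_ne_zero h1
    have e2 : y = y' := by
      by_contra hne; rw [if_neg hne] at h2; exact one_ne_zero h2
    rw [e1, e2]
  have hmem₁ : ∀ x ∈ G₁, ∃ a ∈ A, a • v = x := by
    intro x hx
    obtain ⟨a, ha, h⟩ := Finset.mem_image.mp (hG₁ hx)
    exact ⟨a, (Finset.mem_filter.mp ha).1, h⟩
  have hmem₂ : ∀ x ∈ G₂, ∃ a ∈ A, a • w = x := by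
    intro x hx
    obtain ⟨a, ha, h⟩ := Finset.mem_image.mp (hG₂ hx)
    exact ⟨a, (Finset.mem_filter.mp ha).1, h⟩
  have hcardN : #(Finset.univ.image nn) = m * m := by
    rw [Finset.card_image_of_injective _ hnn]
    simp [Fintype.card_prod, hG₁c, hG₂c]
  refine ⟨G₁ ⊕ G₂, inferInstance, γ, x₀, Finset.univ.image nn, ?_, ?_, ?_, ?_, ?_⟩
  · rintro (x | x)
    · exact L1.1 _ x.2
    · exact L2.1 _ x.2
  · have hQ0 : (Q0:ℝ) ≤ Q := by rw [hQ]; push_cast; linarith
    suffices H : ∀ i j : G₁ ⊕ G₂, i ≠ j → (Q : ℝ) * ‖γ i‖ ≤ ‖γ j‖ ∨ (Q : ℝ) * ‖γ j‖ ≤ ‖γ i‖ by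
      intro i j hij
      rcases H i j hij with h1 | h1
      · left; exact (mul_le_mul_of_nonneg_right hQ0 (norm_nonneg _)).trans h1
      · right; exact (mul_le_mul_of_nonneg_right hQ0 (norm_nonneg _)).trans h1
    rintro (x | x) (y | y) hxy
    · exact L1.2 _ x.2 _ y.2 (fun h => hxy (by rw [Subtype.ext h]))
    · exact hG₂l _ x.2 _ y.2
    · exact (hG₂l _ y.2 _ x.2).symm
    · exact L2.2 _ x.2 _ y.2 (fun h => hxy (by rw [Subtype.ext h]))
  · intro n hn
    rw [Finset.mem_image] at hn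
    obtain ⟨⟨x, y⟩, -, rfl⟩ := hn
    constructor
    · rw [Fintype.sum_sum_type]
      simp only [nn, Sum.elim_inl, Sum.elim_inr]
      rw [Finset.sum_eq_single x, Finset.sum_eq_single y]
      · simp
      · intro b _ hb; simp [hb]
      · simp
      · intro b _ hb; simp [hb]
      · simp
    · rw [Fintype.sum_sum_type]
      simp only [nn, γ, Sum.elim_inl, Sum.elim_inr]
      rw [Finset.sum_eq_single x, Finset.sum_eq_single y]
      · obtain ⟨a, ha, hax⟩ := hmem₁ x.1 x.2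
        obtain ⟨b, hb, hby⟩ := hmem₂ y.1 y.2
        have := hE a ha b hb
        rw [hax, hby] at this
        simpa [add_assoc] using this
      · intro b _ hb; simp [hb]
      · simp
      · intro b _ hb; simp [hb]
      · simp
  · rw [hcardN]; nlinarith
  · rw [hcardN]
    -- few ratios
    have key : ∀ u u' : Fin d → ℝ, ∀ a ∈ A, ∀ b ∈ A,
        ‖a • u‖⁻¹ • (b • u') ∈ (A / A).image (fun c : ℝ => c • (‖u‖⁻¹ • u')) := by
      intro u u' a ha b hb
      rw [Finset.mem_image]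
      refine ⟨b / a, Finset.div_mem_div hb ha, ?_⟩
      rw [norm_smul, Real.norm_eq_abs, abs_of_pos (hpos a ha), mul_inv,
        smul_smul, smul_smul]
      congr 1
      field_simp
    have hRat : #(Rat γ) ≤ 4 * #(A / A) := by
      have hsub : Rat γ ⊆ (((A / A).image (fun c : ℝ => c • (‖v‖⁻¹ • v))) ∪
          ((A / A).image (fun c : ℝ => c • (‖v‖⁻¹ • w)))) ∪
          (((A / A).image (fun c : ℝ => c • (‖w‖⁻¹ • v))) ∪
          ((A / A).image (fun c : ℝ => c • (‖w‖⁻¹ • w)))) := by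
        intro x hx
        unfold Rat at hx
        rw [Finset.mem_image] at hx
        obtain ⟨⟨i, j⟩, -, rfl⟩ := hx
        rcases i with i | i <;> rcases j with j | j
        · obtain ⟨a, ha, hax⟩ := hmem₁ i.1 i.2
          obtain ⟨b, hb, hbx⟩ := hmem₁ j.1 j.2
          have := key v v a ha b hb
          rw [hax, hbx] at this
          exact Finset.mem_union_left _ (Finset.mem_union_left _ this)
        · obtain ⟨a, ha, hax⟩ := hmem₁ i.1 i.2
          obtain ⟨b, hb, hbx⟩ := hmem₂ j.1 j.2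
          have := key v w a ha b hb
          rw [hax, hbx] at this
          exact Finset.mem_union_left _ (Finset.mem_union_right _ this)
        · obtain ⟨a, ha, hax⟩ := hmem₂ i.1 i.2
          obtain ⟨b, hb, hbx⟩ := hmem₁ j.1 j.2
          have := key w v a ha b hb
          rw [hax, hbx] at this
          exact Finset.mem_union_right _ (Finset.mem_union_left _ this)
        · obtain ⟨a, ha, hax⟩ := hmem₂ i.1 i.2
          obtain ⟨b, hb, hbx⟩ := hmem₂ j.1 j.2
          have := key w w a ha b hb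
          rw [hax, hbx] at this
          exact Finset.mem_union_right _ (Finset.mem_union_right _ this)
      refine (Finset.card_le_card hsub).trans ?_
      refine (Finset.card_union_le _ _).trans ?_
      have h1 := Finset.card_union_le ((A / A).image (fun c : ℝ => c • (‖v‖⁻¹ • v)))
        ((A / A).image (fun c : ℝ => c • (‖v‖⁻¹ • w)))
      have h2 := Finset.card_union_le ((A / A).image (fun c : ℝ => c • (‖w‖⁻¹ • v)))
        ((A / A).image (fun c : ℝ => c • (‖w‖⁻¹ • w)))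
      have h3 := Finset.card_image_le (s := A / A) (f := fun c : ℝ => c • (‖v‖⁻¹ • v))
      have h4 := Finset.card_image_le (s := A / A) (f := fun c : ℝ => c • (‖v‖⁻¹ • w))
      have h5 := Finset.card_image_le (s := A / A) (f := fun c : ℝ => c • (‖w‖⁻¹ • v))
      have h6 := Finset.card_image_le (s := A / A) (f := fun c : ℝ => c • (‖w‖⁻¹ • w))
      omega
    have hRatR : (#(Rat γ) : ℝ) ≤ 4 * #(A / A) := by exact_mod_cast hRat
    have hmR : (2:ℝ) ≤ m := by exact_mod_cast hm2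
    have hmA : (m:ℝ) ≤ #A := by
      have h1 : m ≤ #A := by
        calc m = 1 * m := (one_mul m).symm
          _ ≤ 2 * s * m := Nat.mul_le_mul_right _ (by omega)
          _ ≤ _ := hm3
      exact_mod_cast h1
    have hA4m : (#A:ℝ) ≤ 4 * s * m := by exact_mod_cast hm4
    have hlogm : Real.log ((m * m : ℕ) : ℝ) ≤ 2 * Real.log #A := by
      push_cast
      rw [Real.log_mul (by positivity) (by positivity)]
      have := Real.log_le_log (by linarith) hmA
      linarith
    have hlogm0 : 0 ≤ Real.log ((m * m : ℕ) : ℝ) := Real.log_natCast_nonneg _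
    have hmain : (128 * C * (s:ℝ) ^ 2) * (#(A / A) * Real.log #A) ≤ (#A:ℝ) ^ 2 := by
      calc (128 * C * (s:ℝ) ^ 2) * (#(A / A) * Real.log #A) ≤
            ((128 * C * s ^ 2 + 8 * s : ℕ) : ℝ) * (#(A / A) * Real.log #A) := by
            apply mul_le_mul_of_nonneg_right _ (by positivity)
            push_cast
            have : (0:ℝ) ≤ 8 * s := by positivity
            linarith
        _ = ((128 * C * s ^ 2 + 8 * s : ℕ) : ℝ) * #(A / A) * Real.log #A := by ring
        _ ≤ _ := hlog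
    have hAsq : (#A:ℝ) ^ 2 ≤ 16 * (s:ℝ) ^ 2 * ((m:ℝ) * m) := by
      calc (#A:ℝ) ^ 2 ≤ (4 * s * m) ^ 2 := pow_le_pow_left₀ (by positivity) hA4m 2
        _ = _ := by ring
    have hfin : 8 * C * (#(A / A) * Real.log #A) ≤ (m:ℝ) * m := by
      have hs2 : (0:ℝ) < 16 * (s:ℝ) ^ 2 := by positivity
      have : (16 * (s:ℝ) ^ 2) * (8 * C * (#(A / A) * Real.log #A)) ≤
          (16 * (s:ℝ) ^ 2) * ((m:ℝ) * m) := by
        calc (16 * (s:ℝ) ^ 2) * (8 * C * (#(A / A) * Real.log #A)) =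
            (128 * C * (s:ℝ) ^ 2) * (#(A / A) * Real.log #A) := by ring
          _ ≤ _ := hmain.trans hAsq
      exact le_of_mul_le_mul_left this hs2
    calc (C:ℝ) * #(Rat γ) * Real.log ((m * m : ℕ) : ℝ)
        ≤ C * (4 * #(A / A)) * (2 * Real.log #A) := by
          apply mul_le_mul _ hlogm hlogm0 (by positivity)
          exact mul_le_mul_of_nonneg_left hRatR (Nat.cast_nonneg C)
      _ = 8 * C * (#(A / A) * Real.log #A) := by ring
      _ ≤ (m:ℝ) * m := hfin
      _ = _ := by push_cast; ring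

end Pool.Agent.Helper69.Sim
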